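import Pool.Agent.Helper29K9.EF.Dens
import Pool.Agent.Helper29K9.Cham.Even

/-!
# The critical points which follow are attracted by the cycle `{1, 2}`
-/

set_option autoImplicit false

namespace Pool.Agent.Helper29K9.EF

open Real Finset Filter Topology

open Pool.Agent.H934R2.Ch (f T b cos_lb2 cos_ub4 pi_sq_lt pi_sq_gt f_even f_odd T_even T_odd T_iter_pos shadow trap
  T_after_one Attracts)
open Pool.Agent.Y296.CB (ts V V_even V_odd odd_step' even_over ts_nonneg Trap Z conv_below attracts_of_iter)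
open Pool.Agent.H499R2.ND (Tn Tn_ge)
open Pool.Agent.Helper29K9.Cham (mod3_back le_two_pow trap_fate T_of_even)

/-- an orbit below can only overshoot at a large even integer -/
theorem over_bel {A lam : ℝ} {a n : ℕ} (ha : 200 ≤ a) (hlam : 1 ≤ lam)
    (hA : A * a * (π ^ 2 * (2 * (a : ℝ) + 1) / 4) * lam ^ 2 ≤ 1.6) (hA0 : 0 ≤ A) (hn1 : 1 ≤ n) {x : ℝ}
    (h : Bel A n x) (h2 : (T n : ℝ) ≤ f x) : n % 2 = 0 ∧ 130 < n := by
  obtain ⟨hx, hV⟩ := h
  obtain ⟨e, he⟩ : ∃ e : ℝ, e = n - x := ⟨_, rfl⟩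
  have hxe : x = n - e := by rw [he]; ring
  have he0 : 0 < e := by rw [he]; linarith
  rw [← he] at hV
  rw [hxe] at h2
  rcases Nat.even_or_odd' n with ⟨k, rfl | rfl⟩
  · refine ⟨by omega, ?_⟩
    have hk : 1 ≤ k := by omega
    rw [T_even] at h2
    have hf := f_even k (-e)
    have e1 : ((2 * k : ℕ) : ℝ) + -e = ((2 * k : ℕ) : ℝ) - e := by ring
    have e2 : π * -e = -(π * e) := by ring
    rw [e1, e2, Real.cos_neg] at hf
    rw [hf] at h2
    have hc := cos_lb2 (π * e)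
    have hc1 := Real.cos_le_one (π * e)
    set c := Real.cos (π * e) with hcd
    have hpi := Real.pi_pos
    have hkR : (1 : ℝ) ≤ k := by exact_mod_cast hk
    have a1 : (4 * (k : ℝ) + 1) / 4 * (1 - c) ≤ (4 * (k : ℝ) + 1) / 4 * ((π * e) ^ 2 / 2) :=
      mul_le_mul_of_nonneg_left (by linarith) (by positivity)
    have a2 : e * (1 / 2) ≤ e * (1 - c / 2) := mul_le_mul_of_nonneg_left (by linarith) he0.le
    have a3 : e * (1 / 2) ≤ e * ((4 * (k : ℝ) + 1) / 4 * (π ^ 2 * e / 2)) := by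
      have : e * ((4 * (k : ℝ) + 1) / 4 * (π ^ 2 * e / 2)) = (4 * (k : ℝ) + 1) / 4 * ((π * e) ^ 2 / 2) := by
        ring
      rw [this]
      linarith
    have a4 : 1 / 2 ≤ (4 * (k : ℝ) + 1) / 4 * (π ^ 2 * e / 2) := le_of_mul_le_mul_left a3 he0
    have hts : 1 ≤ ts (2 * k) e := by
      unfold ts
      push_cast
      linarith
    have h1 : π ^ 2 * (2 * ((2 * k : ℕ) : ℝ) + 1) / 4 * V (2 * k) e ≤
        π ^ 2 * (2 * ((2 * k : ℕ) : ℝ) + 1) / 4 * (A * ((2 * k : ℕ) : ℝ)) :=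
      mul_le_mul_of_nonneg_left hV (by positivity)
    have h3 : π ^ 2 * (2 * ((2 * k : ℕ) : ℝ) + 1) / 4 * V (2 * k) e =
        ts (2 * k) e / (1 + 4 / 15 * ts (2 * k) e) := by
      unfold V; rw [← mul_div_assoc]; rfl
    rw [h3] at h1
    have h5 : 15 / 19 ≤ ts (2 * k) e / (1 + 4 / 15 * ts (2 * k) e) := by
      rw [le_div_iff₀ (by positivity)]
      linarith
    by_contra hcon
    have hn : ((2 * k : ℕ) : ℝ) ≤ 130 := by
      have : 2 * k ≤ 130 := by omega
      exact_mod_cast this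
    have haR : (200 : ℝ) ≤ a := by exact_mod_cast ha
    have hn0 : (0 : ℝ) ≤ ((2 * k : ℕ) : ℝ) := by positivity
    -- `A a (2 a + 1) π² / 4 ≤ 1.6`
    have h6 : A * a * (π ^ 2 * (2 * (a : ℝ) + 1) / 4) ≤ 1.6 := by
      have h7 : 0 ≤ A * a * (π ^ 2 * (2 * (a : ℝ) + 1) / 4) := by positivity
      have h8 : 1 ≤ lam ^ 2 := one_le_pow₀ hlam
      nlinarith
    have h7 : π ^ 2 * (2 * ((2 * k : ℕ) : ℝ) + 1) / 4 * (A * ((2 * k : ℕ) : ℝ)) ≤ π ^ 2 / 4 * A * (261 * 130) := by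
      have : (2 * ((2 * k : ℕ) : ℝ) + 1) * ((2 * k : ℕ) : ℝ) ≤ 261 * 130 :=
        mul_le_mul (by linarith) hn hn0 (by norm_num)
      calc π ^ 2 * (2 * ((2 * k : ℕ) : ℝ) + 1) / 4 * (A * ((2 * k : ℕ) : ℝ))
          = π ^ 2 / 4 * A * ((2 * ((2 * k : ℕ) : ℝ) + 1) * ((2 * k : ℕ) : ℝ)) := by ring
        _ ≤ _ := mul_le_mul_of_nonneg_left this (by positivity)
    have h8 : π ^ 2 / 4 * A * (200 * 401) ≤ 1.6 := by
      have : (200 : ℝ) * 401 ≤ a * (2 * a + 1) := mul_le_mul haR (by linarith) (by norm_num) (by linarith)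
      calc π ^ 2 / 4 * A * (200 * 401) ≤ π ^ 2 / 4 * A * (a * (2 * a + 1)) :=
            mul_le_mul_of_nonneg_left this (by positivity)
        _ = A * a * (π ^ 2 * (2 * (a : ℝ) + 1) / 4) := by ring
        _ ≤ 1.6 := h6
    linarith
  · exfalso
    rw [T_odd] at h2
    have h3 := (odd_step' k he0.le).1
    push_cast at h2 h3
    linarith

/-- backwards from a multiple of three -/
theorem three_back (i : ℕ) : ∀ n : ℕ, T^[i] n % 3 = 0 → n = 2 ^ i * T^[i] n := by
  induction i with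
  | zero => intro n _; simp
  | succ i ih =>
    intro n h
    have h1 := mod3_back (n := n) (i + 1) h
    have h2 : n % 2 = 0 := h1.2.1 (by omega)
    rw [Function.iterate_succ_apply] at h ⊢
    have h3 := ih (T n) h
    have h4 : n = 2 * T n := by rw [T_of_even h2]; omega
    calc n = 2 * T n := h4
      _ = 2 * (2 ^ i * T^[i] (T n)) := by rw [← h3]
      _ = 2 ^ (i + 1) * T^[i] (T n) := by rw [pow_succ]; ring

/-- **The fate of a resolved state.** -/
theorem safe_att {m L : ℕ} (hmL : m % 2 ^ L ≠ 0) (ha : 200 ≤ T^[L] m) {lam : ℝ} (hlam : 1 ≤ lam)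
    (hT : ∀ k, ((T^[k] (T^[L] m) : ℕ) : ℝ) ≤ lam * (T^[L] m : ℕ)) {y : ℝ}
    (h1 : -2.05 ≤ ts (T^[L] m) ((T^[L] m : ℕ) - y)) (h2 : ts (T^[L] m) ((T^[L] m : ℕ) - y) * lam ^ 2 ≤ 1.6)
    (hk : ∃ k, T^[k] m = 1) : Attracts 1 y := by
  classical
  obtain ⟨k, hk1, hmin⟩ : ∃ k, T^[k] m = 1 ∧ ∀ j < k, T^[j] m ≠ 1 :=
    ⟨Nat.find hk, Nat.find_spec hk, fun j hj => Nat.find_min hk hj⟩
  have hLk : L < k := by
    by_contra hcon
    rcases T_after_one hk1 (not_lt.1 hcon) with h3 | h3 <;> omega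
  obtain ⟨a, had⟩ : ∃ a : ℕ, a = T^[L] m := ⟨_, rfl⟩
  have hiter : ∀ i, T^[i] a = T^[i + L] m := by
    intro i; rw [had, ← Function.iterate_add_apply]
  rw [← had] at ha hT h1 h2
  have hra : T^[k - L] a = 1 := by rw [hiter, show k - L + L = k by omega]; exact hk1
  obtain ⟨r, hr⟩ : ∃ r, r = k - L := ⟨_, rfl⟩
  rw [← hr] at hra
  have h8 : 8 ≤ r := by
    by_contra hcon
    have h3 := le_two_pow a r
    rw [hra] at h3
    have h4 : 2 ^ r ≤ 2 ^ 7 := Nat.pow_le_pow_right (by norm_num) (by omega)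
    omega
  have ha1 : 1 ≤ a := by omega
  have haR : (1 : ℝ) ≤ a := by exact_mod_cast ha1
  have hp2 := pi_sq_gt
  have hpi := Real.pi_pos
  -- once in the trap at least seven steps before the arrival
  have fin : ∀ K, K + 7 ≤ r → Trap (T^[K] a) (f^[K] y) → Attracts 1 y := by
    intro K hK hK1
    have htrap : Trap (T^[k - 7] m) (f^[r - 7 - K] (f^[K] y)) := by
      have := shadow (T_iter_pos ha1 K) hK1 (r - 7 - K)
      rw [← Function.iterate_add_apply T, hiter, show r - 7 - K + K + L = k - 7 by omega] at this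
      exact this
    have hmod : T^[k - 7] m % 3 ≠ 0 := by
      intro h3
      have h4 := three_back (k - 7) m h3
      apply hmL
      have h5 : 2 ^ L ∣ 2 ^ (k - 7) := pow_dvd_pow 2 (by omega)
      rw [h4]
      exact Nat.mod_eq_zero_of_dvd (h5.mul_right _)
    have := trap_fate (by omega : 7 ≤ k) hk1 hmin (Or.inl hmod) htrap
    exact attracts_of_iter (K := K) (attracts_of_iter (K := r - 7 - K) this)
  rcases le_or_gt (a : ℝ) y with h | h
  · -- the trap
    refine fin 0 (by omega) ⟨h, ?_⟩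
    simp only [Function.iterate_zero, id]
    have h4 : π ^ 2 * ((y - a) * (2 * (a : ℝ) + 1)) ≤ 8.2 := by
      unfold ts at h1; nlinarith
    have h5 : 0 ≤ (y - a) * (2 * (a : ℝ) + 1) := mul_nonneg (by linarith) (by linarith)
    have h6 : (y - a) * (2 * (a : ℝ) + 1) ≤ 5 / 6 := by nlinarith
    unfold b
    have h7 : y - a ≤ 5 / (6 * (2 * (a : ℝ) + 1)) := by
      rw [le_div_iff₀ (by positivity)]; linarith
    linarith
  · -- below
    obtain ⟨e, he⟩ : ∃ e : ℝ, e = a - y := ⟨_, rfl⟩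
    have he0 : 0 < e := by rw [he]; linarith
    rw [← he] at h1 h2
    obtain ⟨A, hA⟩ : ∃ A : ℝ, A = V a e / a := ⟨_, rfl⟩
    have hV0 := Pool.Agent.Y296.CB.V_nonneg a he0.le
    have hA0 : 0 ≤ A := by rw [hA]; positivity
    have hAa : A * a = V a e := by rw [hA]; field_simp
    have hc : A * a * (π ^ 2 * (2 * (a : ℝ) + 1) / 4) * lam ^ 2 ≤ 1.6 := by
      rw [hAa]
      have h3 := Pool.Agent.Y296.CB.V_le a he0.le
      have h4 : V a e * (π ^ 2 * (2 * (a : ℝ) + 1) / 4) ≤ ts a e := by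
        unfold ts
        rw [mul_comm]
        exact mul_le_mul_of_nonneg_left h3 (by positivity)
      exact (mul_le_mul_of_nonneg_right h4 (by positivity)).trans h2
    have key : ∀ k, Bel A (T^[k] a) (f^[k] y) ∨ Trap (T^[k] a) (f^[k] y) := by
      intro k
      induction k with
      | zero => left; exact ⟨h, by simp only [Function.iterate_zero, id]; rw [← he, hAa]⟩
      | succ k ih =>
        rw [Function.iterate_succ_apply', Function.iterate_succ_apply']
        rcases ih with h3 | h3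
        · exact step_bel (T_iter_pos ha1 k) h3 (ts_le' ha1 hlam hc hA0 (hT k) (by linarith [h3.1]) h3.2)
        · right; exact trap (T_iter_pos ha1 k) h3
    by_cases hK : ∃ K, Trap (T^[K] a) (f^[K] y)
    · obtain ⟨K, hK1, hKmin⟩ : ∃ K, Trap (T^[K] a) (f^[K] y) ∧ ∀ j < K, ¬ Trap (T^[j] a) (f^[j] y) :=
        ⟨Nat.find hK, Nat.find_spec hK, fun j hj => Nat.find_min hK hj⟩
      rcases K with _ | K
      · exact fin 0 (by omega) hK1
      · have hbel : Bel A (T^[K] a) (f^[K] y) := (key K).resolve_right (hKmin K (by omega))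
        have hover : (T (T^[K] a) : ℝ) ≤ f (f^[K] y) := by
          have := hK1.1
          rw [Function.iterate_succ_apply' T, Function.iterate_succ_apply' f] at this
          exact this
        obtain ⟨g1, g2⟩ := over_bel ha hlam hc hA0 (T_iter_pos ha1 K) hbel hover
        have hKr : K < r := by
          by_contra hcon
          rcases T_after_one hra (not_lt.1 hcon) with h3 | h3 <;> omega
        refine fin (K + 1) ?_ hK1
        by_contra hcon
        have e1 : T^[r - (K + 1)] (T^[K] a / 2) = 1 := by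
          have e2 : T^[K + 1] a = T^[K] a / 2 := by
            rw [Function.iterate_succ_apply', T_of_even g1]
          rw [← e2, ← Function.iterate_add_apply, show r - (K + 1) + (K + 1) = r by omega]
          exact hra
        have := le_two_pow (T^[K] a / 2) (r - (K + 1))
        rw [e1] at this
        have h3 : 2 ^ (r - (K + 1)) ≤ 2 ^ 6 := Nat.pow_le_pow_right (by norm_num) (by omega)
        omega
    · push Not at hK
      have hall : ∀ k, Bel A (T^[k] a) (f^[k] y) := fun k => (key k).resolve_right (hK k)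
      refine attracts_of_iter (K := r) (conv_below fun i => ?_)
      have h3 := hall (i + r)
      rw [Function.iterate_add_apply T, Function.iterate_add_apply f, hra] at h3
      have h4 := hT (i + r)
      rw [Function.iterate_add_apply T, hra] at h4
      exact ⟨h3.1.le, ts_le' ha1 hlam hc hA0 h4 (by linarith [h3.1]) h3.2⟩

open Pool.Agent.H499R2.ND (Dn)
open Pool.Agent.Y296.CB.DD (Rch)

/-- resolved words followed by moderate excursions -/
theorem lower_att {c : ℕ → ℝ}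
    (h0 : ∀ η : ℝ, 0 < η → ∃ m0 : ℕ, ∀ m, m0 ≤ m → |sc m (c m) 0 - 1 / 16| ≤ η) (L : ℕ)
    {t lam : ℝ} (ht : 0 < t) (hlam : 1 ≤ lam) (htl : 2 * t ^ 4 * lam ^ 2 ≤ 1.6) :
    ∃ m0 : ℕ, ∀ m, m0 ≤ m → Gd L t m → m % 2 ^ L ≠ 0 →
      (∀ k, ((Tn^[k] (Tn^[L] m) : ℕ) : ℝ) ≤ lam * (Tn^[L] m : ℕ)) → Rch m → Attracts 1 (c m) := by
  have ht4 : 0 < t ^ 4 := by positivity
  obtain ⟨m0, hm0⟩ := close_upto (R := 8) le_rfl h0 L (lt_min (show (0 : ℝ) < 0.05 by norm_num) ht4)
  refine ⟨max m0 (2 ^ L * 200), fun m hm hG hmL hT hR => ?_⟩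
  obtain ⟨hA, hG1, hG2⟩ := hG
  have hcl : |sc m (c m) L - S m L| ≤ min 0.05 (t ^ 4) :=
    hm0 m ((le_max_left _ _).trans hm) L le_rfl (fun j hj => Or.inr (hA j (by omega)))
  have h1 := abs_le.1 hcl
  have h2 : min 0.05 (t ^ 4) ≤ 0.05 := min_le_left _ _
  have h3 : min 0.05 (t ^ 4) ≤ t ^ 4 := min_le_right _ _
  have h5 : sc m (c m) L ≤ 2 * t ^ 4 := by linarith
  have ha : 200 ≤ T^[L] m := by
    have h6 := (le_max_right _ _).trans hm
    have h7 := le_two_pow m L
    exact Nat.le_of_mul_le_mul_left (h6.trans h7) (by positivity)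
  have e1 : ts (T^[L] m) ((T^[L] m : ℕ) - f^[L + 1] (c m)) = sc m (c m) L := rfl
  exact attracts_of_iter (K := L + 1) (safe_att hmL ha hlam hT (y := f^[L + 1] (c m)) (by rw [e1]; linarith)
    (by rw [e1]; exact (mul_le_mul_of_nonneg_right h5 (by positivity)).trans htl) hR)

/-- **Almost all followers are attracted by `{1, 2}`.** -/
theorem dn_att {c : ℕ → ℝ}
    (h0 : ∀ η : ℝ, 0 < η → ∃ m0 : ℕ, ∀ m, m0 ≤ m → |sc m (c m) 0 - 1 / 16| ≤ η) {K : ℝ} (hK : 3 ≤ K)
    {δ : ℝ} (hδ0 : 0 < δ) (hδ1 : δ ≤ 1) (hδ : Dn Rch δ) :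
    Dn (fun m => Rch m ∧ (Fo K c m ∧ Attracts 1 (c m))) (δ * kap) :=
  dn_gen (fun M => by
    obtain ⟨m0, hm0⟩ := upper h0 K M
    exact ⟨m0, fun m hm h => hm0 m hm h.1⟩) (fun L t lam ht hlam htl => by
    obtain ⟨m0, hm0⟩ := lower h0 hK L ht hlam htl
    obtain ⟨m1, hm1⟩ := lower_att h0 L ht hlam htl
    exact ⟨max m0 m1, fun m hm h1 h2 h3 h4 => ⟨hm0 m ((le_max_left _ _).trans hm) h1 h3,
      hm1 m ((le_max_right _ _).trans hm) h1 h2 h3 h4⟩⟩) hδ0 hδ1 hδ

end Pool.Agent.Helper29K9.EF
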