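import Pool.Agent.Helper29K9.EF.Path
import Pool.Agent.Y296.CB.Dens

/-!
# Counting

The words of length `L` and the residues of `T^L n` modulo `2^K` are independent; transfer of small sets
along `T`.
-/

set_option autoImplicit false

namespace Pool.Agent.Helper29K9.EF

open Finset Filter Topology

open Pool.Agent.H499R2.ND (Tn Dn cnt cnt_eq cnt_mono cnt_or AK AK_mod rK rK_ge Tn_eq dn_AK Tn_le)
open Pool.Agent.Helper894.Collatz (od)
open Pool.Agent.Y296.CB.DD (Rch Rch_inv Bdd_of_Rch)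

/-- a bijection of the residues -/
theorem card_affine (K c u : ℕ) (hu : u % 2 = 1) (A : ℕ → Prop) [DecidablePred A]
    (hA : ∀ n, A (n % 2 ^ K) ↔ A n) :
    ((range (2 ^ K)).filter (fun j => A (c + u * j))).card = ((range (2 ^ K)).filter A).card := by
  set q := 2 ^ K with hq
  have hq0 : 0 < q := by positivity
  have hinj : Set.InjOn (fun j => (c + u * j) % q) (range q : Set ℕ) := by
    intro j hj j' hj' h
    have hj1 : j < q := by simpa using hj
    have hj2 : j' < q := by simpa using hj'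
    have h1 : c + u * j ≡ c + u * j' [MOD q] := h
    have h2 : u * j ≡ u * j' [MOD q] := Nat.ModEq.add_left_cancel' c h1
    have h3 : Nat.gcd q u = 1 := by
      rw [hq]
      apply Nat.Coprime.pow_left
      rw [Nat.coprime_two_left]
      exact Nat.odd_iff.2 hu
    have h4 : j ≡ j' [MOD q] := Nat.ModEq.cancel_left_of_coprime h3 h2
    have h5 : j % q = j' % q := h4
    rwa [Nat.mod_eq_of_lt hj1, Nat.mod_eq_of_lt hj2] at h5
  have himg : (range q).image (fun j => (c + u * j) % q) = range q := by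
    apply eq_of_subset_of_card_le
    · intro x hx
      rw [mem_image] at hx
      obtain ⟨j, _, rfl⟩ := hx
      exact mem_range.2 (Nat.mod_lt _ hq0)
    · rw [card_image_of_injOn hinj]
  have h1 : (range q).filter A = ((range q).filter (fun j => A (c + u * j))).image (fun j => (c + u * j) % q) := by
    conv_lhs => rw [← himg]
    rw [filter_image]
    congr 1
    apply filter_congr
    intro j _
    exact (hA (c + u * j))
  rw [h1, card_image_of_injOn]
  exact hinj.mono (by intro x hx; exact mem_coe.2 (mem_filter.1 (mem_coe.1 hx)).1)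

theorem iter_period (L r j : ℕ) : Tn^[L] (r + 2 ^ L * j) = Tn^[L] r + 3 ^ od L r * j := by
  have h := (Pool.Agent.Helper894.Collatz.period L r j).1
  rwa [Tn_eq] at h

theorem iter_mod (L K n : ℕ) : Tn^[L] (n % 2 ^ (L + K)) % 2 ^ K = Tn^[L] n % 2 ^ K := by
  have h := iter_period L (n % 2 ^ (L + K)) (2 ^ K * (n / 2 ^ (L + K)))
  rw [← mul_assoc, ← pow_add, Nat.mod_add_div] at h
  rw [h]
  have e : 3 ^ od L (n % 2 ^ (L + K)) * (2 ^ K * (n / 2 ^ (L + K)))
      = 2 ^ K * (3 ^ od L (n % 2 ^ (L + K)) * (n / 2 ^ (L + K))) := by ring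
  rw [e, Nat.add_mul_mod_self_left]

/-- **Independence.** -/
theorem card_prod (L K : ℕ) (G A : ℕ → Prop) [DecidablePred G] [DecidablePred A]
    (hG : ∀ n, G (n % 2 ^ L) ↔ G n) (hA : ∀ n, A (n % 2 ^ K) ↔ A n)
    [DecidablePred fun x => G x ∧ A (Tn^[L] x)] :
    ((range (2 ^ (L + K))).filter (fun x => G x ∧ A (Tn^[L] x))).card =
      ((range (2 ^ L)).filter G).card * ((range (2 ^ K)).filter A).card := by
  have h1 : ((range (2 ^ (L + K))).filter (fun x => G x ∧ A (Tn^[L] x))).card =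
      ((range (2 ^ L) ×ˢ range (2 ^ K)).filter (fun p => G p.1 ∧ A (Tn^[L] p.1 + 3 ^ od L p.1 * p.2))).card := by
    have hL : 0 < 2 ^ L := by positivity
    refine card_bij' (fun x _ => (x % 2 ^ L, x / 2 ^ L)) (fun p _ => p.1 + 2 ^ L * p.2) ?_ ?_ ?_ ?_
    · intro x hx
      rw [mem_filter, mem_range] at hx
      rw [mem_filter, mem_product, mem_range, mem_range]
      refine ⟨⟨Nat.mod_lt _ hL, ?_⟩, (hG x).2 hx.2.1, ?_⟩
      · rw [Nat.div_lt_iff_lt_mul hL, ← pow_add, add_comm K L]; exact hx.1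
      · have := iter_period L (x % 2 ^ L) (x / 2 ^ L)
        rw [Nat.mod_add_div] at this
        show A (Tn^[L] (x % 2 ^ L) + 3 ^ od L (x % 2 ^ L) * (x / 2 ^ L))
        rw [← this]; exact hx.2.2
    · rintro ⟨r, j⟩ hp
      rw [mem_filter, mem_product, mem_range, mem_range] at hp
      obtain ⟨⟨hr, hj⟩, hg, ha⟩ := hp
      simp only at hr hj hg ha ⊢
      rw [mem_filter, mem_range]
      refine ⟨?_, ?_, ?_⟩
      · calc r + 2 ^ L * j < 2 ^ L + 2 ^ L * j := by omega
          _ = 2 ^ L * (j + 1) := by ring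
          _ ≤ 2 ^ L * 2 ^ K := Nat.mul_le_mul_left _ hj
          _ = 2 ^ (L + K) := by rw [pow_add]
      · rw [← hG, Nat.add_mul_mod_self_left, hG]; exact hg
      · rw [iter_period]; exact ha
    · intro x _
      exact Nat.mod_add_div x (2 ^ L)
    · rintro ⟨r, j⟩ hp
      rw [mem_filter, mem_product, mem_range, mem_range] at hp
      obtain ⟨⟨hr, hj⟩, -⟩ := hp
      simp only at hr ⊢
      rw [Nat.add_mul_mod_self_left, Nat.mod_eq_of_lt hr, Nat.add_mul_div_left _ _ hL,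
        Nat.div_eq_of_lt hr, zero_add]
  rw [h1, card_filter, sum_product]
  have h2 : ∀ r ∈ range (2 ^ L), (∑ j ∈ range (2 ^ K), if G r ∧ A (Tn^[L] r + 3 ^ od L r * j) then 1 else 0)
      = if G r then ((range (2 ^ K)).filter A).card else 0 := by
    intro r _
    by_cases h : G r
    · rw [if_pos h, ← card_affine K (Tn^[L] r) (3 ^ od L r) (by rw [Nat.pow_mod]; simp) A hA, card_filter]
      apply sum_congr rfl
      intro j _
      exact if_congr ⟨fun h' => h'.2, fun h' => ⟨h, h'⟩⟩ rfl rfl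
    · rw [if_neg h]
      apply sum_eq_zero
      intro j _
      rw [if_neg (fun h' => h h'.1)]
  rw [sum_congr rfl h2, ← sum_filter, sum_const, smul_eq_mul]

/-- density of the good words followed by an admissible residue -/
theorem dn_prod {P : ℕ → Prop} {β : ℝ} (hP : ∀ n, P n ↔ P (Tn n)) (hβ : Dn P β) (L K : ℕ) (G : ℕ → Prop)
    [DecidablePred G] (hG : ∀ n, G (n % 2 ^ L) ↔ G n) (lam : ℝ) :
    Dn (fun n => (G n ∧ AK K lam (Tn^[L] n)) ∧ P n)
      ((((range (2 ^ L)).filter G).card : ℝ) / 2 ^ L * rK K lam * β) := by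
  classical
  have h := dn_prop hP hβ (L + K) (Q := fun n => G n ∧ AK K lam (Tn^[L] n)) (by
    intro n
    have h1 : G (n % 2 ^ (L + K)) ↔ G n := by
      rw [← hG, ← hG n, pow_add, Nat.mod_mul_right_mod]
    have h2 : AK K lam (Tn^[L] (n % 2 ^ (L + K))) ↔ AK K lam (Tn^[L] n) := by
      rw [← AK_mod, iter_mod, AK_mod]
    rw [h1, h2])
  have hc := card_prod L K G (AK K lam) hG (AK_mod K lam)
  have e : ((((range (2 ^ (L + K))).filter (fun x => G x ∧ AK K lam (Tn^[L] x))).card : ℝ)) / 2 ^ (L + K)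
      = (((range (2 ^ L)).filter G).card : ℝ) / 2 ^ L * rK K lam := by
    rw [hc]
    unfold rK
    push_cast
    rw [pow_add, mul_div_mul_comm]
  rw [e] at h
  exact h

/-- transfer of small sets, one step -/
theorem cnt_comp (Q : ℕ → Prop) (N : ℕ) : cnt (fun m => Q (Tn m)) N ≤ 2 * cnt Q (2 * N) := by
  classical
  have h1 : cnt (fun m => Q (Tn m)) N ≤ cnt (fun m => m % 2 = 0 ∧ Q (Tn m)) N
      + cnt (fun m => m % 2 = 1 ∧ Q (Tn m)) N := by
    refine cnt_or N fun m _ _ h => ?_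
    rcases Nat.mod_two_eq_zero_or_one m with h2 | h2
    · exact Or.inl ⟨h2, h⟩
    · exact Or.inr ⟨h2, h⟩
  have key : ∀ i : ℕ, cnt (fun m => m % 2 = i ∧ Q (Tn m)) N ≤ cnt Q (2 * N) := by
    intro i
    rw [cnt_eq, cnt_eq]
    have : ((Icc 1 N).filter (fun m => m % 2 = i ∧ Q (Tn m))).card ≤ ((Icc 1 (2 * N)).filter Q).card := by
      apply card_le_card_of_injOn Tn
      · intro m hm
        rw [mem_coe, mem_filter, mem_Icc] at hm ⊢
        refine ⟨⟨?_, ?_⟩, hm.2.2⟩
        · have := Pool.Agent.H499R2.ND.Tn_ge m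
          omega
        · have := Tn_le hm.1.1
          omega
      · intro a ha b hb hab
        rw [mem_coe, mem_filter] at ha hb
        have h2 := ha.2.1
        have h3 := hb.2.1
        simp only [Tn] at hab
        split_ifs at hab <;> omega
    exact_mod_cast this
  linarith [key 0, key 1]

theorem cnt_comp_iter (L : ℕ) (Q : ℕ → Prop) (N : ℕ) :
    cnt (fun m => Q (Tn^[L] m)) N ≤ 2 ^ L * cnt Q (2 ^ L * N) := by
  induction L generalizing N with
  | zero => simp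
  | succ L ih =>
    have h1 := cnt_comp (fun m => Q (Tn^[L] m)) N
    have h2 := ih (2 * N)
    have e : (fun m => Q (Tn^[L + 1] m)) = fun m => Q (Tn^[L] (Tn m)) := by
      funext m; rw [Function.iterate_succ_apply]
    rw [e]
    refine h1.trans ((mul_le_mul_of_nonneg_left h2 (by norm_num)).trans (le_of_eq ?_))
    have e2 : 2 ^ L * (2 * N) = 2 ^ (L + 1) * N := by ring
    rw [e2]
    ring

/-- late excursions -/
def QL (K : ℕ) (lam : ℝ) (n : ℕ) : Prop :=
  (AK K lam n ∧ Rch n) ∧ ¬ ∀ k, ((Tn^[k] n : ℕ) : ℝ) ≤ lam * n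

theorem dn_QL {δ q lam : ℝ} (hl : 1 ≤ lam) (h3 : Dn Rch δ)
    (h5 : Dn (fun n => Rch n ∧ ∀ k, ((Tn^[k] n : ℕ) : ℝ) ≤ lam * n) (δ * q)) (K : ℕ) :
    Dn (QL K lam) (rK K lam * δ - δ * q) := by
  have h6 := dn_AK Rch_inv h3 K lam
  have h7 := h6.sub h5
  unfold Dn
  refine h7.congr fun N => ?_
  rw [← sub_div]
  congr 1
  rw [sub_eq_iff_eq_add]
  unfold cnt
  have hf : ∀ R : ℕ → Prop, {n : ℕ | 1 ≤ n ∧ n ≤ N ∧ R n}.Finite := fun R =>
    (Set.finite_Icc 1 N).subset fun n hn => ⟨hn.1, hn.2.1⟩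
  have e : {n : ℕ | 1 ≤ n ∧ n ≤ N ∧ (AK K lam n ∧ Rch n)}
      = {n : ℕ | 1 ≤ n ∧ n ≤ N ∧ QL K lam n}
        ∪ {n : ℕ | 1 ≤ n ∧ n ≤ N ∧ (Rch n ∧ ∀ k, ((Tn^[k] n : ℕ) : ℝ) ≤ lam * n)} := by
    ext n
    constructor
    · rintro ⟨h1, h2, h3⟩
      by_cases h5 : ∀ k, ((Tn^[k] n : ℕ) : ℝ) ≤ lam * n
      · exact Or.inr ⟨h1, h2, h3.2, h5⟩
      · exact Or.inl ⟨h1, h2, h3, h5⟩
    · rintro (⟨h1, h2, h3, _⟩ | ⟨h1, h2, h3, h4⟩)
      · exact ⟨h1, h2, h3⟩
      · exact ⟨h1, h2, Pool.Agent.H499R2.ND.AK_of_bound hl h1 h4 K, h3⟩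
  rw [e, Set.ncard_union_eq _ (hf _) (hf _)]
  · push_cast; ring
  · rw [Set.disjoint_left]
    rintro n ⟨_, _, _, h3⟩ ⟨_, _, _, h4⟩
    exact h3 h4

end Pool.Agent.Helper29K9.EF
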