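import Pool.Agent.Helper29K9.EF.Safe
import Pool.Agent.Helper29K9.EF.Count

/-!
# The density of the critical points which follow
-/

set_option autoImplicit false

namespace Pool.Agent.Helper29K9.EF

open Finset Filter Topology

open Pool.Agent.H934R2.Ch (f T T_iter_pos)
open Pool.Agent.Y296.CB (ts crit_zone)
open Pool.Agent.H499R2.ND (Tn Dn cnt cnt_eq cnt_mono cnt_or AK AK_mod rK rK_ge rK_le_one rK_nonneg dn_AK Tn_le)
open Pool.Agent.Y296.CB.DD (Rch Rch_inv Bdd_of_Rch)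

/-- the orbit of `c` follows the orbit of `2 m` from the first step on -/
def Fo (K : ℝ) (c : ℕ → ℝ) (m : ℕ) : Prop := ∀ k, Near K (Tn^[k] m) (f^[k + 1] (c m))

theorem close_upto {R : ℝ} (hR : 8 ≤ R) {c : ℕ → ℝ}
    (h0 : ∀ η : ℝ, 0 < η → ∃ m0 : ℕ, ∀ m, m0 ≤ m → |sc m (c m) 0 - 1 / 16| ≤ η) (L : ℕ) {η : ℝ} (hη : 0 < η) :
    ∃ m0 : ℕ, ∀ m, m0 ≤ m → ∀ L' ≤ L, (∀ k < L', |sc m (c m) k| ≤ R ∨ |S m k| ≤ 7) →
      |sc m (c m) L' - S m L'| ≤ η := by
  choose F hF using fun L' => close hR c h0 L' η hη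
  refine ⟨(range (L + 1)).sup F, fun m hm L' hL' h => hF L' m ?_ h⟩
  exact (Finset.le_sup (f := F) (mem_range.2 (by omega))).trans hm

/-- **Upper bound**: an escaping word forbids following. -/
theorem upper {c : ℕ → ℝ}
    (h0 : ∀ η : ℝ, 0 < η → ∃ m0 : ℕ, ∀ m, m0 ≤ m → |sc m (c m) 0 - 1 / 16| ≤ η) (K : ℝ) (M : ℕ) :
    ∃ m0 : ℕ, ∀ m, m0 ≤ m → Fo K c m → Al M m := by
  obtain ⟨R, hRd⟩ : ∃ R : ℝ, R = 2.468 * |K| + 8 := ⟨_, rfl⟩
  have hK := abs_nonneg K
  have hR : 8 ≤ R := by rw [hRd]; linarith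
  obtain ⟨i, hi⟩ := pow_unbounded_of_one_lt ((R + 1) / 7) (show (1 : ℝ) < 3 / 2 by norm_num)
  obtain ⟨m0, hm0⟩ := close_upto hR h0 (M + i) one_pos
  refine ⟨m0, fun m hm hF => ?_⟩
  have hs : ∀ k, |sc m (c m) k| ≤ R := by
    intro k
    have h1 := ts_of_near (hF k)
    have h2 : K ≤ |K| := le_abs_self K
    have h3 : |sc m (c m) k| ≤ 2.468 * K := h1
    rw [hRd]; linarith
  intro k hk
  by_contra hlt
  push Not at hlt
  obtain ⟨h1, -⟩ := S_big hlt i
  have h2 := hm0 m hm (k + i) (by omega) (fun j _ => Or.inl (hs j))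
  have h3 := hs (k + i)
  have h4 : |S m (k + i)| ≤ |sc m (c m) (k + i)| + |sc m (c m) (k + i) - S m (k + i)| := by
    have := abs_sub (sc m (c m) (k + i)) (sc m (c m) (k + i) - S m (k + i))
    rwa [show sc m (c m) (k + i) - (sc m (c m) (k + i) - S m (k + i)) = S m (k + i) by ring] at this
  rw [div_lt_iff₀ (by norm_num)] at hi
  linarith

/-- good words -/
def Gd (L : ℕ) (t : ℝ) (n : ℕ) : Prop := Al L n ∧ (-2 ≤ S n L ∧ S n L ≤ t ^ 4)

theorem Gd_mod (L : ℕ) (t : ℝ) (n : ℕ) : Gd L t (n % 2 ^ L) ↔ Gd L t n := by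
  unfold Gd
  rw [Al_mod, S_mod n L L le_rfl]

/-- **Lower bound**: resolved words followed by moderate excursions. -/
theorem lower {c : ℕ → ℝ}
    (h0 : ∀ η : ℝ, 0 < η → ∃ m0 : ℕ, ∀ m, m0 ≤ m → |sc m (c m) 0 - 1 / 16| ≤ η) {K : ℝ} (hK : 3 ≤ K) (L : ℕ)
    {t lam : ℝ} (ht : 0 < t) (hlam : 1 ≤ lam) (htl : 2 * t ^ 4 * lam ^ 2 ≤ 1.6) :
    ∃ m0 : ℕ, ∀ m, m0 ≤ m → Gd L t m → (∀ k, ((Tn^[k] (Tn^[L] m) : ℕ) : ℝ) ≤ lam * (Tn^[L] m : ℕ)) → Fo K c m := by
  have ht4 : 0 < t ^ 4 := by positivity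
  obtain ⟨m0, hm0⟩ := close_upto (R := 8) le_rfl h0 L (lt_min (show (0 : ℝ) < 0.05 by norm_num) ht4)
  refine ⟨max m0 1, fun m hm hG hT => ?_⟩
  have hm1 : 1 ≤ m := (le_max_right _ _).trans hm
  obtain ⟨hA, hG1, hG2⟩ := hG
  have hcl : ∀ k ≤ L, |sc m (c m) k - S m k| ≤ min 0.05 (t ^ 4) := fun k hk =>
    hm0 m ((le_max_left _ _).trans hm) k hk (fun j hj => Or.inr (hA j (by omega)))
  have hpos : 1 ≤ Tn^[L] m := by rw [Tn_T]; exact T_iter_pos hm1 L
  intro k
  rcases Nat.lt_or_ge L k with hk | hk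
  · -- late times
    obtain ⟨j, rfl⟩ : ∃ j, k = j + L := ⟨k - L, by omega⟩
    have h1 := abs_le.1 (hcl L le_rfl)
    have h2 : min 0.05 (t ^ 4) ≤ 0.05 := min_le_left _ _
    have h3 : min 0.05 (t ^ 4) ≤ t ^ 4 := min_le_right _ _
    have e1 : ts (Tn^[L] m) ((Tn^[L] m : ℕ) - f^[L + 1] (c m)) = sc m (c m) L := rfl
    have h4 := safe hpos hlam hT (y := f^[L + 1] (c m)) (by rw [e1]; linarith)
      (by
        rw [e1]
        have h5 : sc m (c m) L ≤ 2 * t ^ 4 := by linarith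
        exact (mul_le_mul_of_nonneg_right h5 (by positivity)).trans htl) j
    rw [← Function.iterate_add_apply, ← Function.iterate_add_apply] at h4
    have e2 : j + (L + 1) = j + L + 1 := by ring
    rw [e2] at h4
    exact Near_mono (by linarith) h4
  · have h1 := hcl k hk
    have h2 := hA k hk
    have h3 : |sc m (c m) k| ≤ 7.05 := by
      have h4 : |sc m (c m) k| ≤ |S m k| + |sc m (c m) k - S m k| := by
        have := abs_add_le (S m k) (sc m (c m) k - S m k)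
        rwa [show S m k + (sc m (c m) k - S m k) = sc m (c m) k by ring] at this
      have h5 : min 0.05 (t ^ 4) ≤ 0.05 := min_le_left _ _
      linarith
    have h6 : |ts (Tn^[k] m) ((Tn^[k] m : ℕ) - f^[k + 1] (c m))| ≤ 7.05 := h3
    exact Near_mono (by norm_num; linarith) (near_ts h6)

/-- the proportion of the good words -/
theorem good_prop (L : ℕ) {t : ℝ} (ht : 0 < t) (ht1 : t ≤ 1) [DecidablePred (Gd L t)] :
    kap - 0.97 ^ L / (2 * t) ≤ (((range (2 ^ L)).filter (Gd L t)).card : ℝ) / 2 ^ L := by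
  classical
  have h1 := unresolved L ht ht1
  have h2 := kap_le L
  have h3 : (((range (2 ^ L)).filter (Al L)).card : ℝ) = (((range (2 ^ L)).filter (Gd L t)).card : ℝ)
      + (((range (2 ^ L)).filter (fun r => Al L r ∧ ¬ (-2 ≤ S r L ∧ S r L ≤ t ^ 4))).card : ℝ) := by
    have h4 := card_filter_add_card_filter_not (s := (range (2 ^ L)).filter (Al L))
      (fun r => -2 ≤ S r L ∧ S r L ≤ t ^ 4)
    rw [filter_filter, filter_filter] at h4
    have h5 : ((((range (2 ^ L)).filter (fun r => Al L r ∧ (-2 ≤ S r L ∧ S r L ≤ t ^ 4))).card : ℝ))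
      + ((((range (2 ^ L)).filter (fun r => Al L r ∧ ¬ (-2 ≤ S r L ∧ S r L ≤ t ^ 4))).card : ℝ))
      = (((range (2 ^ L)).filter (Al L)).card : ℝ) := by exact_mod_cast h4
    rw [← h5]
    congr 1
    congr!
  have h6 : pK L = (((range (2 ^ L)).filter (Al L)).card : ℝ) / 2 ^ L := by unfold pK; congr!
  rw [h6, h3, add_div] at h2
  have h7 : ((((range (2 ^ L)).filter (fun r => Al L r ∧ ¬ (-2 ≤ S r L ∧ S r L ≤ t ^ 4))).card : ℝ)) / 2 ^ L
      ≤ 0.97 ^ L / (2 * t) := by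
    rw [div_le_div_iff₀ (by positivity) (by positivity)]
    have h8 : (1.94 : ℝ) ^ L = 0.97 ^ L * 2 ^ L := by rw [← mul_pow]; norm_num
    rw [h8] at h1
    linarith
  linarith

/-- good words which are not all even -/
def Gd' (L : ℕ) (t : ℝ) (n : ℕ) : Prop := Gd L t n ∧ n % 2 ^ L ≠ 0

theorem Gd'_mod (L : ℕ) (t : ℝ) (n : ℕ) : Gd' L t (n % 2 ^ L) ↔ Gd' L t n := by
  unfold Gd'
  rw [Gd_mod, Nat.mod_mod]

theorem good_prop' (L : ℕ) {t : ℝ} (ht : 0 < t) (ht1 : t ≤ 1) [DecidablePred (Gd' L t)] :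
    kap - (0.97 ^ L / (2 * t) + 1 / 2 ^ L) ≤ (((range (2 ^ L)).filter (Gd' L t)).card : ℝ) / 2 ^ L := by
  classical
  have h1 := good_prop L ht ht1
  have h2 : ((range (2 ^ L)).filter (Gd L t)).card ≤ ((range (2 ^ L)).filter (Gd' L t)).card + 1 := by
    have h3 : (range (2 ^ L)).filter (Gd L t) ⊆ insert 0 ((range (2 ^ L)).filter (Gd' L t)) := by
      intro n hn
      rw [mem_filter, mem_range] at hn
      rw [mem_insert, mem_filter, mem_range]
      by_cases h0 : n = 0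
      · exact Or.inl h0
      · refine Or.inr ⟨hn.1, hn.2, ?_⟩
        rw [Nat.mod_eq_of_lt hn.1]
        exact h0
    exact (card_le_card h3).trans (card_insert_le _ _)
  have h4 : (((range (2 ^ L)).filter (Gd L t)).card : ℝ) ≤ (((range (2 ^ L)).filter (Gd' L t)).card : ℝ) + 1 := by
    exact_mod_cast h2
  have h5 : (((range (2 ^ L)).filter (Gd L t)).card : ℝ) / 2 ^ L ≤
      (((range (2 ^ L)).filter (Gd' L t)).card : ℝ) / 2 ^ L + 1 / 2 ^ L := by
    rw [← add_div]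
    exact div_le_div_of_nonneg_right h4 (by positivity)
  linarith

/-- **The density of a set between the good words and the surviving words.** -/
theorem dn_gen {X : ℕ → Prop} (hup : ∀ M : ℕ, ∃ m0 : ℕ, ∀ m, m0 ≤ m → X m → Al M m)
    (hlow : ∀ (L : ℕ) (t lam : ℝ), 0 < t → 1 ≤ lam → 2 * t ^ 4 * lam ^ 2 ≤ 1.6 → ∃ m0 : ℕ, ∀ m, m0 ≤ m →
      Gd L t m → m % 2 ^ L ≠ 0 → (∀ k, ((Tn^[k] (Tn^[L] m) : ℕ) : ℝ) ≤ lam * (Tn^[L] m : ℕ)) → Rch m → X m)
    {δ : ℝ} (hδ0 : 0 < δ) (hδ1 : δ ≤ 1) (hδ : Dn Rch δ) : Dn (fun m => Rch m ∧ X m) (δ * kap) := by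
  classical
  have hkap0 : 0 ≤ kap := le_ciInf fun K => pK_nonneg K
  have hkap1 : kap ≤ 1 := by
    have h1 := kap_le 0
    have h2 : pK 0 ≤ 1 := by
      unfold pK
      have h3 := card_filter_le (range (2 ^ 0)) (Al 0)
      rw [card_range] at h3
      rw [div_le_one (by positivity)]
      exact_mod_cast h3
    linarith
  unfold Dn
  rw [Metric.tendsto_atTop]
  intro ε hε
  -- the upper bound
  have hU : ∀ᶠ N : ℕ in atTop, cnt (fun m => Rch m ∧ X m) N / N < δ * kap + ε := by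
    have h1 : ∃ M, pK M < kap + ε / 3 := by
      have := pK_tendsto.eventually (gt_mem_nhds (show kap < kap + ε / 3 by linarith))
      exact this.exists
    obtain ⟨M, hM⟩ := h1
    obtain ⟨m0, hm0⟩ := hup M
    have h2 := dn_Al Rch_inv hδ M
    have h3 := h2.eventually (gt_mem_nhds (show pK M * δ < pK M * δ + ε / 3 by linarith))
    have h4 : ∀ᶠ N : ℕ in atTop, (m0 : ℝ) / N < ε / 3 := by
      have : Tendsto (fun N : ℕ => (m0 : ℝ) / N) atTop (𝓝 0) := tendsto_const_div_atTop_nhds_zero_nat _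
      exact this.eventually (gt_mem_nhds (by positivity))
    filter_upwards [h3, h4, eventually_gt_atTop 0] with N g1 g2 g3
    have hN : (0 : ℝ) < N := by exact_mod_cast g3
    have g4 : cnt (fun m => Rch m ∧ X m) N ≤ cnt (fun n => Al M n ∧ Rch n) N + cnt (fun n => n < m0) N := by
      refine cnt_or N fun n _ _ h => ?_
      rcases Nat.lt_or_ge n m0 with h5 | h5
      · exact Or.inr h5
      · exact Or.inl ⟨hm0 n h5 h.2, h.1⟩
    have g5 : cnt (fun n => n < m0) N ≤ m0 := by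
      rw [cnt_eq]
      have : ((Icc 1 N).filter (fun n => n < m0)).card ≤ (range m0).card := by
        apply card_le_card
        intro x hx
        rw [mem_filter] at hx
        exact mem_range.2 hx.2
      rw [card_range] at this
      exact_mod_cast this
    have g6 : cnt (fun m => Rch m ∧ X m) N / N ≤ cnt (fun n => Al M n ∧ Rch n) N / N + m0 / N := by
      rw [← add_div]
      exact div_le_div_of_nonneg_right (by linarith) hN.le
    have g7 : pK M * δ ≤ kap * δ + ε / 3 := by nlinarith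
    linarith
  -- the lower bound
  have hLw : ∀ᶠ N : ℕ in atTop, δ * kap - ε < cnt (fun m => Rch m ∧ X m) N / N := by
    obtain ⟨β, _, _, _, hβ⟩ := Pool.Agent.H499R2.ND.Bdd_density
    obtain ⟨ε', hε'⟩ : ∃ ε' : ℝ, ε' = min 1 (ε / 8) := ⟨_, rfl⟩
    have hε'0 : 0 < ε' := by rw [hε']; exact lt_min one_pos (by positivity)
    have hε'1 : ε' ≤ 1 := by rw [hε']; exact min_le_left _ _
    have hε'2 : ε' ≤ ε / 8 := by rw [hε']; exact min_le_right _ _
    obtain ⟨lam, hlamd⟩ : ∃ lam : ℝ, lam = 1 / ε' := ⟨_, rfl⟩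
    have hlam : 1 ≤ lam := by rw [hlamd, le_div_iff₀ hε'0]; linarith
    have hlam0 : 0 < lam := by linarith
    have hli : 1 / lam = ε' := by rw [hlamd, one_div_one_div]
    -- `t`
    obtain ⟨t, htd⟩ : ∃ t : ℝ, t = 1 / (2 * lam) := ⟨_, rfl⟩
    have ht0 : 0 < t := by rw [htd]; positivity
    have htl1 : t * lam = 1 / 2 := by rw [htd]; field_simp
    have ht1 : t ≤ 1 := by nlinarith
    have htl : 2 * t ^ 4 * lam ^ 2 ≤ 1.6 := by
      have e : 2 * t ^ 4 * lam ^ 2 = 2 * (t * lam) ^ 2 * t ^ 2 := by ring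
      rw [e, htl1]
      nlinarith
    -- `L`
    obtain ⟨L, hL⟩ : ∃ L : ℕ, (0.97 : ℝ) ^ L / (2 * t) + 1 / 2 ^ L ≤ ε' := by
      have h1 : Tendsto (fun L : ℕ => (0.97 : ℝ) ^ L / (2 * t) + 1 / 2 ^ L) atTop (𝓝 0) := by
        have h1 := (tendsto_pow_atTop_nhds_zero_of_lt_one (show (0 : ℝ) ≤ 0.97 by norm_num)
          (show (0.97 : ℝ) < 1 by norm_num)).div_const (2 * t)
        have h2 := tendsto_pow_atTop_nhds_zero_of_lt_one (show (0 : ℝ) ≤ 1 / 2 by norm_num)
          (show (1 / 2 : ℝ) < 1 by norm_num)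
        have h3 := h1.add h2
        rw [zero_div, zero_add] at h3
        refine h3.congr fun L => ?_
        rw [div_pow, one_pow]
      obtain ⟨L, hL⟩ := (h1.eventually (gt_mem_nhds hε'0)).exists
      exact ⟨L, hL.le⟩
    -- the law of the maximal excursion
    obtain ⟨q, g1, g2, g3, g4⟩ := Pool.Agent.H499R2.ND.exc_law hβ (lam := lam) hlam
    have h5 : Dn (fun n => Rch n ∧ ∀ k, ((Tn^[k] n : ℕ) : ℝ) ≤ lam * n) (δ * q) :=
      Pool.Agent.H499R2.HL.joint_exc hβ (P := Rch) (fun n h => Bdd_of_Rch h) hδ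
        (Pool.Agent.H499R2.ND.inv_next Rch_inv) hlam g1 g4
    -- `K0`
    obtain ⟨K0, hK0⟩ : ∃ K0 : ℕ, (4 : ℝ) ^ L * (rK K0 lam * δ - δ * q) < ε' := by
      have h1 : Tendsto (fun K0 : ℕ => (4 : ℝ) ^ L * (rK K0 lam * δ - δ * q)) atTop (𝓝 0) := by
        have := ((g1.mul_const δ).sub_const (δ * q)).const_mul ((4 : ℝ) ^ L)
        rw [mul_comm q δ, sub_self, mul_zero] at this
        exact this
      exact (h1.eventually (gt_mem_nhds hε'0)).exists
    obtain ⟨m0, hm0⟩ := hlow L t lam ht0 hlam htl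
    have d1 := dn_prod Rch_inv hδ L K0 (Gd' L t) (Gd'_mod L t) lam
    have d2 := dn_QL hlam hδ h5 K0
    have hgood := good_prop' L ht0 ht1
    have hrK := rK_ge hlam0 K0
    rw [hli] at hrK
    obtain ⟨p, hp⟩ : ∃ p : ℝ, p = (((range (2 ^ L)).filter (Gd' L t)).card : ℝ) / 2 ^ L := ⟨_, rfl⟩
    rw [← hp] at d1 hgood
    have hp0 : 0 ≤ p := by rw [hp]; positivity
    have e1 := d1.eventually (lt_mem_nhds (show p * rK K0 lam * δ - ε' < p * rK K0 lam * δ by linarith))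
    have hmul : Tendsto (fun N : ℕ => 2 ^ L * N) atTop atTop := by
      apply Filter.tendsto_atTop_atTop.2
      intro b'
      exact ⟨b', fun a ha => ha.trans (Nat.le_mul_of_pos_left a (by positivity))⟩
    have d3 : Tendsto (fun N : ℕ => (4 : ℝ) ^ L * (cnt (QL K0 lam) (2 ^ L * N) / ((2 ^ L * N : ℕ) : ℝ))) atTop
        (𝓝 ((4 : ℝ) ^ L * (rK K0 lam * δ - δ * q))) := (d2.comp hmul).const_mul _
    have e2 := d3.eventually (gt_mem_nhds hK0)
    have e3 : ∀ᶠ N : ℕ in atTop, (m0 : ℝ) / N < ε' := by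
      have : Tendsto (fun N : ℕ => (m0 : ℝ) / N) atTop (𝓝 0) := tendsto_const_div_atTop_nhds_zero_nat _
      exact this.eventually (gt_mem_nhds hε'0)
    filter_upwards [e1, e2, e3, eventually_gt_atTop 0] with N k1 k2 k3 k4
    have hN : (0 : ℝ) < N := by exact_mod_cast k4
    have k5 : cnt (fun n => (Gd' L t n ∧ AK K0 lam (Tn^[L] n)) ∧ Rch n) N ≤
        cnt (fun m => Rch m ∧ X m) N + (cnt (fun m => QL K0 lam (Tn^[L] m)) N + cnt (fun n => n < m0) N) := by
      refine (cnt_or N (Q := fun m => Rch m ∧ X m) (R := fun m => QL K0 lam (Tn^[L] m) ∨ m < m0)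
        fun n _ _ h => ?_).trans (add_le_add le_rfl (cnt_or N fun n _ _ h => h))
      obtain ⟨⟨h6, h7⟩, h8⟩ := h
      rcases Nat.lt_or_ge n m0 with h9 | h9
      · exact Or.inr (Or.inr h9)
      by_cases h10 : ∀ k, ((Tn^[k] (Tn^[L] n) : ℕ) : ℝ) ≤ lam * (Tn^[L] n : ℕ)
      · exact Or.inl ⟨h8, hm0 n h9 h6.1 h6.2 h10 h8⟩
      · refine Or.inr (Or.inl ⟨⟨h7, ?_⟩, h10⟩)
        have : ∀ L, Rch n → Rch (Tn^[L] n) := by
          intro L
          induction L with
          | zero => exact fun h => h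
          | succ L ih =>
            intro h
            rw [Function.iterate_succ_apply']
            exact (Rch_inv _).1 (ih h)
        exact this L h8
    have k6 : cnt (fun n => n < m0) N ≤ m0 := by
      rw [cnt_eq]
      have : ((Icc 1 N).filter (fun n => n < m0)).card ≤ (range m0).card := by
        apply card_le_card
        intro x hx
        rw [mem_filter] at hx
        exact mem_range.2 hx.2
      rw [card_range] at this
      exact_mod_cast this
    have k7 := cnt_comp_iter L (QL K0 lam) N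
    have k8 : cnt (fun m => QL K0 lam (Tn^[L] m)) N / N ≤
        (4 : ℝ) ^ L * (cnt (QL K0 lam) (2 ^ L * N) / ((2 ^ L * N : ℕ) : ℝ)) := by
      rw [div_le_iff₀ hN]
      refine k7.trans (le_of_eq ?_)
      push_cast
      have : (4 : ℝ) ^ L = 2 ^ L * 2 ^ L := by rw [← mul_pow]; norm_num
      rw [this]
      field_simp
    have k9 : cnt (fun n => (Gd' L t n ∧ AK K0 lam (Tn^[L] n)) ∧ Rch n) N / N ≤
        cnt (fun m => Rch m ∧ X m) N / N + (cnt (fun m => QL K0 lam (Tn^[L] m)) N / N + m0 / N) := by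
      rw [← add_div, ← add_div]
      exact div_le_div_of_nonneg_right (by linarith) hN.le
    have k10 : δ * kap - 3 * ε' ≤ p * rK K0 lam * δ := by
      have l1 : kap - ε' ≤ p := by linarith
      have l2 : (kap - ε') * (1 - ε') ≤ p * rK K0 lam := by
        rcases le_or_gt (kap - ε') 0 with l3 | l3
        · have l4 : (kap - ε') * (1 - ε') ≤ 0 := mul_nonpos_of_nonpos_of_nonneg l3 (by linarith)
          have l5 : 0 ≤ p * rK K0 lam := mul_nonneg hp0 (rK_nonneg _ _)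
          linarith
        · exact mul_le_mul l1 hrK (by linarith) hp0
      have l6 : kap - 2 * ε' ≤ (kap - ε') * (1 - ε') := by nlinarith
      have l7 : kap - 2 * ε' ≤ p * rK K0 lam := by linarith
      have l8 : (kap - 2 * ε') * δ ≤ p * rK K0 lam * δ := mul_le_mul_of_nonneg_right l7 hδ0.le
      nlinarith
    linarith
  have hboth := hU.and hLw
  obtain ⟨N0, hN0⟩ := eventually_atTop.1 hboth
  refine ⟨N0, fun N hN => ?_⟩
  obtain ⟨h1, h2⟩ := hN0 N hN
  rw [Real.dist_eq, abs_lt]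
  constructor <;> linarith

/-- **The density of the even integers which are followed.** -/
theorem dn_Fo {c : ℕ → ℝ}
    (h0 : ∀ η : ℝ, 0 < η → ∃ m0 : ℕ, ∀ m, m0 ≤ m → |sc m (c m) 0 - 1 / 16| ≤ η) {K : ℝ} (hK : 3 ≤ K)
    {δ : ℝ} (hδ0 : 0 < δ) (hδ1 : δ ≤ 1) (hδ : Dn Rch δ) : Dn (fun m => Rch m ∧ Fo K c m) (δ * kap) :=
  dn_gen (upper h0 K) (fun L t lam ht hlam htl => by
    obtain ⟨m0, hm0⟩ := lower h0 hK L ht hlam htl
    exact ⟨m0, fun m hm h1 _ h2 _ => hm0 m hm h1 h2⟩) hδ0 hδ1 hδ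

end Pool.Agent.Helper29K9.EF
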