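import Pool.Agent.Helper29K9.EF.Kap

/-!
# The upper bound for the proportion of the surviving words: the computation
-/

set_option autoImplicit false

namespace Pool.Agent.Helper29K9.EF

set_option maxRecDepth 100000 in
theorem UB_num : UB 14 (1048576, 1048576) ≤ 15475 := by decide +kernel

end Pool.Agent.Helper29K9.EF
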