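import Pool.Agent.Helper29K9.EF.Kap

/-!
# The lower bound for the proportion of the surviving words: the computation
-/

set_option autoImplicit false

namespace Pool.Agent.Helper29K9.EF

set_option maxRecDepth 100000 in
theorem LB_num : 916 * (16777216 * 2 ^ 14) ≤ 1000 * LB 14 (1048576, 1048576) := by decide +kernel

end Pool.Agent.Helper29K9.EF
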