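import Pool.Agent.Helper29K9.EF.Att
import Pool.Agent.Helper29K9.EF.NumA
import Pool.Agent.Helper29K9.EF.NumB

/-!
# The densities of the critical points which follow
-/

set_option autoImplicit false

namespace Pool.Agent.Helper29K9.EF

open Real Finset Filter Topology

open Pool.Agent.H934R2.Ch (f T b Attracts shadow crit_in_trap T_even)
open Pool.Agent.Y296.CB (crit_zone attracts_of_iter)
open Pool.Agent.H499R2.ND (Tn Dn cnt inv_prog)
open Pool.Agent.H499R2.LT (Dn_add Dn_iff)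
open Pool.Agent.Y296.CB.DD (Rch Rch_inv Dn_half Tn_two_mul)

theorem start_in : In (1048576, 1048576) (1 / 16) := by
  constructor <;> norm_num

theorem kap_ub_gen (M : ℕ) {u : ℕ} (hu : UB M (1048576, 1048576) ≤ u) : kap ≤ (u : ℝ) / 2 ^ M := by
  have h1 := kap_le M
  rw [pK_eq] at h1
  have h2 := UB_spec M _ _ start_in
  generalize UB M (1048576, 1048576) = v at hu h2
  have h3 : (v : ℝ) ≤ u := by exact_mod_cast hu
  exact h1.trans (div_le_div_of_nonneg_right (h2.trans h3) (by positivity))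

theorem kap_lb_gen (M a b : ℕ) (hb : 0 < b) (hl : a * (16777216 * 2 ^ M) ≤ b * LB M (1048576, 1048576)) :
    (a : ℝ) / b ≤ kap := by
  refine ge_of_tendsto pK_tendsto ?_
  filter_upwards [eventually_ge_atTop M] with K hK
  obtain ⟨j, rfl⟩ : ∃ j, K = M + j := ⟨K - M, by omega⟩
  rw [pK_eq]
  have h1 := LB_spec M _ _ start_in j
  generalize LB M (1048576, 1048576) = v at hl h1
  have h2 : (a : ℝ) * (16777216 * 2 ^ M) ≤ b * v := by exact_mod_cast hl
  have hbR : (0 : ℝ) < b := by exact_mod_cast hb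
  have h3 : (0 : ℝ) < 2 ^ j := by positivity
  have h4 : (2 : ℝ) ^ (M + j) = 2 ^ M * 2 ^ j := pow_add _ _ _
  rw [div_le_div_iff₀ hbR (by positivity), h4]
  have h5 := mul_le_mul_of_nonneg_right h2 h3.le
  have h6 := mul_le_mul_of_nonneg_left h1 hbR.le
  nlinarith

theorem kap_ub : kap ≤ 0.945 := by
  refine (kap_ub_gen 14 UB_num).trans ?_
  norm_num

theorem kap_lb : 0.916 ≤ kap := by
  refine le_trans ?_ (kap_lb_gen 14 916 1000 (by norm_num) LB_num)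
  norm_num

/-- following, in terms of the original orbits -/
def Follows (K x : ℝ) (n : ℕ) : Prop :=
  ∀ k : ℕ, |f^[k] x - (T^[k] n : ℕ)| ≤ K / (2 * ((T^[k] n : ℕ) : ℝ) + 1)

theorem follows_odd {n : ℕ} (hn : n % 2 = 1) {x : ℝ} (h1 : |x - n| < 1 / 2) (h : deriv f x = 0) {K : ℝ}
    (hK : 3 ≤ K) : Follows K x n := by
  have h2 : x ∈ Set.Icc (n : ℝ) (n + b n) := by
    obtain ⟨y, ⟨hy1, hy2, hy3⟩, -⟩ := Pool.Agent.H934R2.Ch.exists_unique_odd n hn
    have e := (Pool.Agent.Y296.CB.crit_unique (n := n) (by omega)).unique (y₁ := x) (y₂ := y) ⟨h1, h⟩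
      ⟨by rw [abs_lt]; constructor <;> linarith, hy3⟩
    rw [e]
    exact crit_in_trap hn hy1 hy2 hy3
  intro k
  have h3 := near_trap (shadow (n := n) (by omega) h2 k)
  exact Near_mono (by linarith) h3

theorem follows_even {m : ℕ} (hm : 1 ≤ m) {x : ℝ} (h1 : |x - (2 * m : ℕ)| < 1 / 2) (h : deriv f x = 0) {K : ℝ}
    (hK : 3 ≤ K) : Follows K x (2 * m) ↔ ∀ k, Near K (Tn^[k] m) (f^[k + 1] x) := by
  constructor
  · intro hF k
    have h2 := hF (k + 1)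
    rw [Function.iterate_succ_apply T, T_even] at h2
    exact h2
  · intro hF k
    rcases k with _ | k
    · obtain ⟨h2, h3⟩ := crit_zone hm h1 h
      show |x - (2 * m : ℕ)| ≤ K / (2 * (((2 * m : ℕ)) : ℝ) + 1)
      rw [abs_sub_comm, abs_of_nonneg (by linarith), le_div_iff₀ (by positivity)]
      push_cast at h3 ⊢
      nlinarith
    · have h2 := hF k
      rw [Function.iterate_succ_apply T, T_even]
      exact h2

theorem Rch_half {n : ℕ} (h : n % 2 = 0) : Rch n ↔ Rch (n / 2) := by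
  have h9 := Rch_inv n
  have h10 : Tn n = n / 2 := by
    have := Tn_two_mul (n / 2)
    rwa [show 2 * (n / 2) = n by omega] at this
  rw [h10] at h9
  exact h9

/-- transfer to even integers -/
theorem dn_even {X : ℕ → Prop} {Y : ℕ → Prop} (hXY : ∀ m, 1 ≤ m → (Y (2 * m) ↔ X m)) {d : ℝ}
    (hX : Dn (fun m => Rch m ∧ X m) d) : Dn (fun n => n % 2 = 0 ∧ Rch n ∧ Y n) (d / 2) := by
  refine Dn_iff (fun n hn => ?_) (Dn_half hX)
  constructor
  · rintro ⟨h1, h2, h3⟩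
    have e : 2 * (n / 2) = n := by omega
    refine ⟨h1, (Rch_half h1).2 h2, ?_⟩
    have := (hXY (n / 2) (by omega)).2 h3
    rwa [e] at this
  · rintro ⟨h1, h2, h3⟩
    have e : 2 * (n / 2) = n := by omega
    rw [← e] at h3
    exact ⟨h1, (Rch_half h1).1 h2, (hXY (n / 2) (by omega)).1 h3⟩

/-- a difference of densities -/
theorem dn_diff {P Q : ℕ → Prop} {d d' : ℝ} (hP : Dn P d) (hQ : Dn (fun n => P n ∧ Q n) d') :
    Dn (fun n => P n ∧ ¬ Q n) (d - d') := by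
  unfold Dn at *
  refine (hP.sub hQ).congr fun N => ?_
  rw [← sub_div]
  congr 1
  unfold Pool.Agent.H499R2.ND.cnt
  have hf : {n : ℕ | 1 ≤ n ∧ n ≤ N ∧ P n}.Finite :=
    (Set.finite_Icc 1 N).subset fun n hn => ⟨hn.1, hn.2.1⟩
  have hs : {n : ℕ | 1 ≤ n ∧ n ≤ N ∧ P n ∧ Q n} ⊆ {n : ℕ | 1 ≤ n ∧ n ≤ N ∧ P n} :=
    fun n hn => ⟨hn.1, hn.2.1, hn.2.2.1⟩
  have e : {n : ℕ | 1 ≤ n ∧ n ≤ N ∧ P n ∧ ¬ Q n} =
      {n : ℕ | 1 ≤ n ∧ n ≤ N ∧ P n} \ {n : ℕ | 1 ≤ n ∧ n ≤ N ∧ P n ∧ Q n} := by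
    ext n
    constructor
    · rintro ⟨h1, h2, h3, h4⟩
      exact ⟨⟨h1, h2, h3⟩, fun h => h4 h.2.2.2⟩
    · rintro ⟨⟨h1, h2, h3⟩, h4⟩
      exact ⟨h1, h2, h3, fun h => h4 ⟨h1, h2, h3, h⟩⟩
  rw [e, Set.ncard_sdiff hs (hf.subset hs), Nat.cast_sub (Set.ncard_le_ncard hs hf)]

/-- **All densities.** -/
theorem main {c : ℕ → ℝ} (hc : ∀ n : ℕ, 1 ≤ n → |c n - n| < 1 / 2 ∧ deriv f (c n) = 0)
    (hodd : ∀ n : ℕ, n % 2 = 1 → 7 ≤ n → Rch n → Attracts 1 (c n))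
    {δ : ℝ} (hδ0 : 0 < δ) (hδ1 : δ ≤ 1) (hδ : Dn Rch δ) {K : ℝ} (hK : 3 ≤ K) :
    Dn (fun n => Rch n ∧ Follows K (c n) n) (δ * (1 + kap) / 2) ∧
    Dn (fun n => n % 2 = 0 ∧ Rch n ∧ Follows K (c n) n) (δ * kap / 2) ∧
    Dn (fun n => Rch n ∧ Follows K (c n) n ∧ Attracts 1 (c n)) (δ * (1 + kap) / 2) ∧
    Dn (fun n => Rch n ∧ ¬ Follows K (c n) n) (δ * (1 - kap) / 2) := by
  have hc2 : ∀ m : ℕ, 1 ≤ m → |c (2 * m) - (2 * m : ℕ)| < 1 / 2 ∧ deriv f (c (2 * m)) = 0 :=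
    fun m hm => hc (2 * m) (by omega)
  have h0 := first (c := fun m => c (2 * m)) hc2
  have g1 := dn_Fo h0 hK hδ0 hδ1 hδ
  have g2 := dn_att h0 hK hδ0 hδ1 hδ
  have e1 : ∀ m, 1 ≤ m → (Follows K (c (2 * m)) (2 * m) ↔ Fo K (fun m => c (2 * m)) m) :=
    fun m hm => follows_even hm (hc2 m hm).1 (hc2 m hm).2 hK
  have k1 := dn_even (Y := fun n => Follows K (c n) n) e1 g1
  have k2 := dn_even (Y := fun n => Follows K (c n) n ∧ Attracts 1 (c n))
    (fun m hm => and_congr (e1 m hm) Iff.rfl) g2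
  have h7 : Dn (fun n => n % 2 = 1 ∧ Rch n) (δ / 2) := by
    have := inv_prog Rch_inv hδ (q := 2) (by norm_num) 1
    exact_mod_cast this
  have h8 : Dn (fun n => n % 2 = 1 ∧ (Rch n ∧ 7 ≤ n)) (δ / 2) := by
    have h9 := dn_diff h7 (Q := fun n => n < 7) (d' := 0) (by
      unfold Dn
      have h10 : Tendsto (fun N : ℕ => (7 : ℝ) / N) atTop (𝓝 0) := tendsto_const_div_atTop_nhds_zero_nat _
      refine squeeze_zero (fun N => by unfold cnt; positivity) (fun N => ?_) h10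
      apply div_le_div_of_nonneg_right _ (Nat.cast_nonneg N)
      unfold cnt
      have h11 : {n : ℕ | 1 ≤ n ∧ n ≤ N ∧ (n % 2 = 1 ∧ Rch n) ∧ n < 7} ⊆ ((range 7 : Finset ℕ) : Set ℕ) := by
        rintro n ⟨-, -, -, h⟩
        rw [mem_coe, mem_range]
        exact h
      have h12 := Set.ncard_le_ncard h11 (Finset.finite_toSet _)
      rw [Set.ncard_coe_finset, card_range] at h12
      exact_mod_cast h12)
    rw [sub_zero] at h9
    refine Dn_iff (fun n _ => ?_) h9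
    constructor
    · rintro ⟨⟨a1, a2⟩, a3⟩
      exact ⟨a1, a2, by omega⟩
    · rintro ⟨a1, a2, a3⟩
      exact ⟨⟨a1, a2⟩, by omega⟩
  have j1 : Dn (fun n => Rch n ∧ Follows K (c n) n) (δ * (1 + kap) / 2) := by
    have := Dn_add h7 k1 (fun n h => by omega)
    rw [show δ / 2 + δ * kap / 2 = δ * (1 + kap) / 2 by ring] at this
    refine Dn_iff (fun n hn => ?_) this
    constructor
    · rintro (⟨a1, a2⟩ | ⟨a1, a2, a3⟩)
      · exact ⟨a2, follows_odd a1 (hc n hn).1 (hc n hn).2 hK⟩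
      · exact ⟨a2, a3⟩
    · rintro ⟨a1, a2⟩
      rcases Nat.mod_two_eq_zero_or_one n with h | h
      · exact Or.inr ⟨h, a1, a2⟩
      · exact Or.inl ⟨h, a1⟩
  refine ⟨j1, k1, ?_, ?_⟩
  · -- the set with the additional condition is between a set of this density and the one above
    have h9 := Dn_add h8 k2 (fun n h => by omega)
    rw [show δ / 2 + δ * kap / 2 = δ * (1 + kap) / 2 by ring] at h9
    unfold Dn at h9 j1 ⊢
    have hmono : ∀ {P Q : ℕ → Prop}, (∀ n, 1 ≤ n → P n → Q n) → ∀ N : ℕ, cnt P N / (N : ℝ) ≤ cnt Q N / N :=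
      fun h N => div_le_div_of_nonneg_right (Pool.Agent.H499R2.ND.cnt_mono N fun n h1 _ h3 => h n h1 h3)
        (Nat.cast_nonneg N)
    refine tendsto_of_tendsto_of_tendsto_of_le_of_le h9 j1 (fun N => hmono (fun n hn h => ?_) N)
      (fun N => hmono (fun n _ h => ⟨h.1, h.2.1⟩) N)
    rcases h with ⟨a1, a2, a3⟩ | ⟨a1, a2, a3, a4⟩
    · exact ⟨a2, follows_odd a1 (hc n hn).1 (hc n hn).2 hK, hodd n a1 a3 a2⟩
    · exact ⟨a2, a3, a4⟩
  · have := dn_diff hδ j1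
    rw [show δ - δ * (1 + kap) / 2 = δ * (1 - kap) / 2 by ring] at this
    exact this

end Pool.Agent.Helper29K9.EF
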