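import Pool.Agent.Helper29K9.EF.Path

/-!
# Numerical bounds for the proportion of the surviving words
-/

set_option autoImplicit false

namespace Pool.Agent.Helper29K9.EF

open Finset Filter Topology

open Pool.Agent.H499R2.ND (Tn)

/-- the number of the words of length `K` along which the path which starts in `s` stays in `[-7, 7]` -/
noncomputable def W : ℕ → ℝ → ℝ
  | 0, s => if |s| ≤ 7 then 1 else 0
  | K + 1, s => if |s| ≤ 7 then W K (g0 s) + W K (g1 s) else 0

theorem W_nonneg (K : ℕ) : ∀ s, 0 ≤ W K s := by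
  induction K with
  | zero => intro s; unfold W; split_ifs <;> norm_num
  | succ K ih =>
    intro s; unfold W
    split_ifs
    · exact add_nonneg (ih _) (ih _)
    · exact le_rfl

theorem W_le (K : ℕ) : ∀ s, W K s ≤ 2 ^ K := by
  induction K with
  | zero => intro s; unfold W; split_ifs <;> norm_num
  | succ K ih =>
    intro s; unfold W
    rw [pow_succ]
    split_ifs
    · linarith [ih (g0 s), ih (g1 s)]
    · positivity

theorem W_big (K : ℕ) {s : ℝ} (h : ¬ |s| ≤ 7) : W K s = 0 := by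
  cases K <;> unfold W <;> rw [if_neg h]

/-- safe points -/
theorem safe_zone {s : ℝ} (h1 : -3 ≤ s) (h2 : s ≤ 0) :
    (-3 ≤ g0 s ∧ g0 s ≤ 0) ∧ (-3 ≤ g1 s ∧ g1 s ≤ 0) := by
  unfold g0 g1
  refine ⟨⟨by nlinarith, by nlinarith⟩, by nlinarith [sq_nonneg (s + 3 / 2)], by nlinarith⟩

theorem W_safe (K : ℕ) : ∀ s, -3 ≤ s → s ≤ 0 → W K s = 2 ^ K := by
  induction K with
  | zero =>
    intro s h1 h2
    unfold W
    rw [if_pos (by rw [abs_le]; constructor <;> linarith)]; norm_num
  | succ K ih =>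
    intro s h1 h2
    obtain ⟨h3, h4⟩ := safe_zone h1 h2
    unfold W
    rw [if_pos (by rw [abs_le]; constructor <;> linarith), ih _ h3.1 h3.2, ih _ h4.1 h4.2, pow_succ]
    ring

theorem W_eq_aux (i : ℕ) : ∀ j, ∑ r ∈ range (2 ^ (j + i)), (open Classical in if Al (j + i) r then (1 : ℝ) else 0) =
    ∑ r ∈ range (2 ^ j), (open Classical in if Al j r then W i (S r j) else 0) := by
  classical
  induction i with
  | zero =>
    intro j
    simp only [Nat.add_zero]
    refine sum_congr rfl fun r _ => ?_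
    split_ifs with h
    · unfold W; rw [if_pos (h j le_rfl)]
    · rfl
  | succ i ih =>
    intro j
    have e : j + (i + 1) = (j + 1) + i := by ring
    rw [e, ih (j + 1), pow_succ 2 j, mul_two, sum_range_add, ← sum_add_distrib]
    refine sum_congr rfl fun r _ => ?_
    rw [add_comm (2 ^ j) r]
    have hA : Al j (r + 2 ^ j) ↔ Al j r := by
      rw [← Al_mod j (r + 2 ^ j), Nat.add_mod_right, Al_mod]
    have key : ∀ n : ℕ, (if Al (j + 1) n then W i (S n (j + 1)) else 0) = if Al j n then W i (S n (j + 1)) else 0 := by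
      intro n
      by_cases h1 : Al j n
      · rw [if_pos h1]
        by_cases h2 : |S n (j + 1)| ≤ 7
        · rw [if_pos (show Al (j + 1) n from fun k hk => by
            rcases Nat.lt_or_ge k (j + 1) with h3 | h3
            · exact h1 k (by omega)
            · have : k = j + 1 := by omega
              rw [this]; exact h2)]
        · rw [W_big i h2]; simp
      · rw [if_neg h1, if_neg (fun h => h1 fun k hk => h k (by omega))]
    rw [key, key]
    by_cases h : Al j r
    · have h7 := h j le_rfl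
      rw [if_pos h, if_pos (hA.2 h), if_pos h]
      have e2 : W (i + 1) (S r j) = W i (g0 (S r j)) + W i (g1 (S r j)) := by
        show (if |S r j| ≤ 7 then _ else _) = _
        rw [if_pos h7]
      rw [e2, S_succ, S_succ, S_shift r j le_rfl, flip]
      rcases Nat.mod_two_eq_zero_or_one (Tn^[j] r) with h' | h'
      · rw [h']; simp
      · rw [h']; simp [add_comm]
    · rw [if_neg h, if_neg (fun h' => h (hA.1 h')), if_neg h, add_zero]

theorem pK_eq (K : ℕ) : pK K = W K (1 / 16) / 2 ^ K := by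
  classical
  have h := W_eq_aux K 0
  rw [zero_add, pow_zero, range_one, sum_singleton, S_zero, if_pos (show Al 0 0 from fun k hk => by
    have : k = 0 := by omega
    subst this
    rw [S_zero, abs_of_pos (by norm_num)]; norm_num)] at h
  unfold pK
  rw [← h, card_filter]
  push_cast
  congr 1

/-! ### a lower bound for the survival probability -/

/-- upper bound for the probability of escape -/
noncomputable def Ph (s : ℝ) : ℝ :=
  if -3 ≤ s ∧ s ≤ 0 then 0 else if 0 < s ∧ s ≤ 1.9 then 0.45 * Real.sqrt s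
  else if 1.9 < s ∧ s ≤ 4 then 1 / 2 else 1

theorem sqrt_le_of {s t : ℝ} (ht : 0 ≤ t) (h : s ≤ t ^ 2) : Real.sqrt s ≤ t := by
  rw [← Real.sqrt_sq ht]; exact Real.sqrt_le_sqrt h

theorem Ph_le_one (s : ℝ) : Ph s ≤ 1 := by
  unfold Ph
  split_ifs with h1 h2 h3
  · norm_num
  · have : Real.sqrt s ≤ 2 := sqrt_le_of (by norm_num) (by linarith [h2.2])
    linarith
  · norm_num
  · exact le_rfl

theorem Ph_safe {s : ℝ} (h1 : -3 ≤ s) (h2 : s ≤ 0) : Ph s = 0 := by unfold Ph; rw [if_pos ⟨h1, h2⟩]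

theorem Ph_small {s : ℝ} (h1 : -3 ≤ s) (h2 : s ≤ 1.9) : Ph s ≤ 0.45 * Real.sqrt s := by
  rcases le_or_gt s 0 with h | h
  · rw [Ph_safe h1 h]; positivity
  · unfold Ph; rw [if_neg (by intro h'; linarith [h'.2]), if_pos ⟨h, h2⟩]

theorem Ph_half {s : ℝ} (h1 : 1.9 < s) (h2 : s ≤ 4) : Ph s = 1 / 2 := by
  unfold Ph
  rw [if_neg (by intro h'; linarith [h'.2]), if_neg (by intro h'; linarith [h'.2]), if_pos ⟨h1, h2⟩]

theorem Ph_super {s : ℝ} : Ph (g0 s) + Ph (g1 s) ≤ 2 * Ph s := by
  have b0 := Ph_le_one (g0 s)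
  have b1 := Ph_le_one (g1 s)
  by_cases h1 : -3 ≤ s ∧ s ≤ 0
  · obtain ⟨h3, h4⟩ := safe_zone h1.1 h1.2
    rw [Ph_safe h1.1 h1.2, Ph_safe h3.1 h3.2, Ph_safe h4.1 h4.2]; norm_num
  by_cases h2 : 0 < s ∧ s ≤ 1.9
  · obtain ⟨h2a, h2b⟩ := h2
    have e : Ph s = 0.45 * Real.sqrt s := by unfold Ph; rw [if_neg h1, if_pos ⟨h2a, h2b⟩]
    rw [e]
    have hr := Real.sqrt_nonneg s
    have hr2 := Real.sq_sqrt h2a.le
    rcases le_or_gt s 1 with h3 | h3
    · -- `s ≤ 1`
      have k0 : Ph (g0 s) ≤ 0.45 * (Real.sqrt s * (1 / 2 * (1 - s / 2))) := by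
        have h4 : 0 ≤ g0 s := by unfold g0; nlinarith
        refine (Ph_small (by linarith) (by unfold g0; nlinarith)).trans ?_
        apply mul_le_mul_of_nonneg_left _ (by norm_num)
        apply sqrt_le_of (by
          have : 0 ≤ 1 - s / 2 := by linarith
          positivity)
        have e2 : (Real.sqrt s * (1 / 2 * (1 - s / 2))) ^ 2 = s * (1 / 4 * (1 - s / 2) ^ 2) := by
          rw [mul_pow, hr2]; ring
        rw [e2]
        unfold g0
        nlinarith [mul_nonneg h2a.le (sq_nonneg s)]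
      rcases le_or_gt (g1 s) 1.9 with h5 | h5
      · have k1 : Ph (g1 s) ≤ 0.45 * (Real.sqrt s * (3 / 2 * (1 + s / 6))) := by
          refine (Ph_small (by unfold g1; nlinarith) h5).trans ?_
          apply mul_le_mul_of_nonneg_left _ (by norm_num)
          apply sqrt_le_of (by positivity)
          have e2 : (Real.sqrt s * (3 / 2 * (1 + s / 6))) ^ 2 = s * (9 / 4 * (1 + s / 6) ^ 2) := by
            rw [mul_pow, hr2]; ring
          rw [e2]
          unfold g1
          nlinarith [mul_nonneg h2a.le (sq_nonneg s)]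
        nlinarith
      · have h6 : 0.68 ≤ s := by
          by_contra hlt
          push Not at hlt
          unfold g1 at h5
          nlinarith
        have h7 : 0.8 ≤ Real.sqrt s := Real.le_sqrt_of_sq_le (by norm_num; linarith)
        have k1 : Ph (g1 s) = 1 / 2 := Ph_half h5 (by unfold g1; nlinarith)
        have h8 : Real.sqrt s * (1 / 2 * (1 - s / 2)) ≤ Real.sqrt s * (1 / 2) :=
          mul_le_mul_of_nonneg_left (by linarith) hr
        linarith
    · have k0 : Ph (g0 s) = 0 := Ph_safe (by unfold g0; nlinarith) (by unfold g0; nlinarith)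
      rw [k0]
      rcases le_or_gt s 1.25 with h4 | h4
      · have k1 : Ph (g1 s) = 1 / 2 := Ph_half (by unfold g1; nlinarith) (by unfold g1; nlinarith)
        have h7 : 1 ≤ Real.sqrt s := Real.le_sqrt_of_sq_le (by linarith)
        linarith
      · have h7 : 1.118 ≤ Real.sqrt s := Real.le_sqrt_of_sq_le (by norm_num; linarith)
        linarith
  by_cases h3 : 1.9 < s ∧ s ≤ 4
  · obtain ⟨h3a, h3b⟩ := h3
    have k0 : Ph (g0 s) = 0 := Ph_safe (by unfold g0; nlinarith) (by unfold g0; nlinarith)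
    rw [Ph_half h3a h3b, k0]
    linarith
  · have e : Ph s = 1 := by unfold Ph; rw [if_neg h1, if_neg h2, if_neg h3]
    rw [e]; linarith

theorem W_ge (K : ℕ) : ∀ s, (1 - Ph s) * 2 ^ K ≤ W K s := by
  induction K with
  | zero =>
    intro s
    unfold W
    split_ifs with h
    · have : 0 ≤ Ph s := by
        unfold Ph; split_ifs <;> positivity
      linarith
    · have e : Ph s = 1 := by
        unfold Ph
        rw [if_neg, if_neg, if_neg]
        · intro h'; exact h (by rw [abs_le]; constructor <;> linarith [h'.1, h'.2])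
        · intro h'; exact h (by rw [abs_le]; constructor <;> linarith [h'.1, h'.2])
        · intro h'; exact h (by rw [abs_le]; constructor <;> linarith [h'.1, h'.2])
      rw [e]; norm_num
  | succ K ih =>
    intro s
    unfold W
    have h2K : (0 : ℝ) < 2 ^ K := by positivity
    split_ifs with h
    · have h1 := ih (g0 s)
      have h2 := ih (g1 s)
      have h3 := Ph_super (s := s)
      rw [pow_succ]
      nlinarith
    · have e : Ph s = 1 := by
        unfold Ph
        rw [if_neg, if_neg, if_neg]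
        · intro h'; exact h (by rw [abs_le]; constructor <;> linarith [h'.1, h'.2])
        · intro h'; exact h (by rw [abs_le]; constructor <;> linarith [h'.1, h'.2])
        · intro h'; exact h (by rw [abs_le]; constructor <;> linarith [h'.1, h'.2])
      rw [e]; norm_num

/-! ### interval arithmetic -/

/-- `2^24` -/
def ONE : ℤ := 16777216

/-- `4 g0` and `4 g1` at `a / ONE`, times `ONE ^ 2`, rounded down resp. up -/
def fl0 (a : ℤ) : ℤ := a * (ONE - a) / (4 * ONE)
def ce0 (a : ℤ) : ℤ := a * (ONE - a) / (4 * ONE) + 1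
def fl1 (a : ℤ) : ℤ := 3 * a * (a + 3 * ONE) / (4 * ONE)
def ce1 (a : ℤ) : ℤ := 3 * a * (a + 3 * ONE) / (4 * ONE) + 1

def G0 (p : ℤ × ℤ) : ℤ × ℤ :=
  if 2 * p.2 ≤ ONE then (fl0 p.1, ce0 p.2) else if ONE ≤ 2 * p.1 then (fl0 p.2, ce0 p.1)
  else (min (fl0 p.1) (fl0 p.2), 1048577)

def G1 (p : ℤ × ℤ) : ℤ × ℤ :=
  if -3 * ONE ≤ 2 * p.1 then (fl1 p.1, ce1 p.2) else if 2 * p.2 ≤ -3 * ONE then (fl1 p.2, ce1 p.1)
  else (-28311553, max (ce1 p.1) (ce1 p.2))

/-- `s` is in the interval -/
def In (p : ℤ × ℤ) (s : ℝ) : Prop := (p.1 : ℝ) ≤ 16777216 * s ∧ 16777216 * s ≤ p.2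

theorem div_lo (a : ℤ) {q : ℤ} (hq : 0 < q) : ((a / q : ℤ) : ℝ) ≤ (a : ℝ) / q := by
  rw [le_div_iff₀ (by exact_mod_cast hq)]
  have := Int.ediv_mul_le a hq.ne'
  exact_mod_cast this

theorem div_hi (a : ℤ) {q : ℤ} (hq : 0 < q) : (a : ℝ) / q ≤ ((a / q + 1 : ℤ) : ℝ) := by
  rw [div_le_iff₀ (by exact_mod_cast hq)]
  have := Int.lt_ediv_add_one_mul_self a hq
  exact_mod_cast this.le

theorem fl0_le (a : ℤ) : (fl0 a : ℝ) ≤ 16777216 * g0 ((a : ℝ) / 16777216) := by
  unfold fl0 g0 ONE
  refine (div_lo _ (by norm_num)).trans (le_of_eq ?_)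
  push_cast; ring

theorem ce0_ge (a : ℤ) : 16777216 * g0 ((a : ℝ) / 16777216) ≤ (ce0 a : ℝ) := by
  unfold ce0 g0 ONE
  refine le_trans (le_of_eq ?_) (div_hi _ (by norm_num))
  push_cast; ring

theorem fl1_le (a : ℤ) : (fl1 a : ℝ) ≤ 16777216 * g1 ((a : ℝ) / 16777216) := by
  unfold fl1 g1 ONE
  refine (div_lo _ (by norm_num)).trans (le_of_eq ?_)
  push_cast; ring

theorem ce1_ge (a : ℤ) : 16777216 * g1 ((a : ℝ) / 16777216) ≤ (ce1 a : ℝ) := by
  unfold ce1 g1 ONE
  refine le_trans (le_of_eq ?_) (div_hi _ (by norm_num))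
  push_cast; ring

theorem G0_in {p : ℤ × ℤ} {s : ℝ} (h : In p s) : In (G0 p) (g0 s) := by
  obtain ⟨h1, h2⟩ := h
  obtain ⟨lo, hi⟩ := p
  simp only at h1 h2
  have f1 := fl0_le lo
  have f2 := fl0_le hi
  have c1 := ce0_ge lo
  have c2 := ce0_ge hi
  obtain ⟨x, hx⟩ : ∃ x : ℝ, x = (lo : ℝ) / 16777216 := ⟨_, rfl⟩
  obtain ⟨y, hy⟩ : ∃ y : ℝ, y = (hi : ℝ) / 16777216 := ⟨_, rfl⟩
  rw [← hx] at f1 c1
  rw [← hy] at f2 c2
  have hxl : (lo : ℝ) = 16777216 * x := by rw [hx]; ring
  have hyl : (hi : ℝ) = 16777216 * y := by rw [hy]; ring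
  have h1' : x ≤ s := by linarith
  have h2' : s ≤ y := by linarith
  have hconc : min (g0 x) (g0 y) ≤ g0 s := by
    unfold g0
    rcases le_or_gt (x + s) 1 with h3 | h3
    · exact (min_le_left _ _).trans (by nlinarith)
    · refine (min_le_right _ _).trans (by nlinarith)
  unfold In G0 ONE
  simp only
  split_ifs with h3 h3'
  · have h4 : 2 * (hi : ℝ) ≤ 16777216 := by exact_mod_cast h3
    have h5 : y ≤ 1 / 2 := by linarith
    constructor
    · simp only; refine f1.trans ?_
      have : g0 x ≤ g0 s := by unfold g0; nlinarith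
      linarith
    · simp only; refine le_trans ?_ c2
      have : g0 s ≤ g0 y := by unfold g0; nlinarith
      linarith
  · have h4 : (16777216 : ℝ) ≤ 2 * (lo : ℝ) := by exact_mod_cast h3'
    have h5 : 1 / 2 ≤ x := by linarith
    constructor
    · simp only; refine f2.trans ?_
      have : g0 y ≤ g0 s := by unfold g0; nlinarith
      linarith
    · simp only; refine le_trans ?_ c1
      have : g0 s ≤ g0 x := by unfold g0; nlinarith
      linarith
  · constructor
    · simp only
      push_cast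
      rcases min_le_iff.1 hconc with h6 | h6
      · exact (min_le_left _ _).trans (f1.trans (by linarith))
      · exact (min_le_right _ _).trans (f2.trans (by linarith))
    · simp only
      have : g0 s ≤ 1 / 16 := by unfold g0; nlinarith [sq_nonneg (s - 1 / 2)]
      push_cast
      linarith

theorem G1_in {p : ℤ × ℤ} {s : ℝ} (h : In p s) : In (G1 p) (g1 s) := by
  obtain ⟨h1, h2⟩ := h
  obtain ⟨lo, hi⟩ := p
  simp only at h1 h2
  have f1 := fl1_le lo
  have f2 := fl1_le hi
  have c1 := ce1_ge lo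
  have c2 := ce1_ge hi
  obtain ⟨x, hx⟩ : ∃ x : ℝ, x = (lo : ℝ) / 16777216 := ⟨_, rfl⟩
  obtain ⟨y, hy⟩ : ∃ y : ℝ, y = (hi : ℝ) / 16777216 := ⟨_, rfl⟩
  rw [← hx] at f1 c1
  rw [← hy] at f2 c2
  have hxl : (lo : ℝ) = 16777216 * x := by rw [hx]; ring
  have hyl : (hi : ℝ) = 16777216 * y := by rw [hy]; ring
  have h1' : x ≤ s := by linarith
  have h2' : s ≤ y := by linarith
  have hconv : g1 s ≤ max (g1 x) (g1 y) := by
    unfold g1
    rcases le_or_gt (-3) (y + s) with h3 | h3
    · refine le_trans ?_ (le_max_right _ _)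
      nlinarith
    · refine le_trans ?_ (le_max_left _ _)
      nlinarith
  unfold In G1 ONE
  simp only
  split_ifs with h3 h3'
  · have h4 : -3 * 16777216 ≤ 2 * (lo : ℝ) := by exact_mod_cast h3
    have h5 : -3 / 2 ≤ x := by linarith
    constructor
    · simp only; refine f1.trans ?_
      have : g1 x ≤ g1 s := by unfold g1; nlinarith
      linarith
    · simp only; refine le_trans ?_ c2
      have : g1 s ≤ g1 y := by unfold g1; nlinarith
      linarith
  · have h4 : 2 * (hi : ℝ) ≤ -3 * 16777216 := by exact_mod_cast h3'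
    have h5 : y ≤ -3 / 2 := by linarith
    constructor
    · simp only; refine f2.trans ?_
      have : g1 y ≤ g1 s := by unfold g1; nlinarith
      linarith
    · simp only; refine le_trans ?_ c1
      have : g1 s ≤ g1 x := by unfold g1; nlinarith
      linarith
  · constructor
    · simp only
      have : -27 / 16 ≤ g1 s := by unfold g1; nlinarith [sq_nonneg (s + 3 / 2)]
      push_cast
      linarith
    · simp only
      push_cast
      rcases le_max_iff.1 hconv with h6 | h6
      · exact le_trans (le_trans (by linarith) c1) (le_max_left _ _)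
      · exact le_trans (le_trans (by linarith) c2) (le_max_right _ _)

/-- upper bound for `W M s` on the interval `p` -/
def UB : ℕ → ℤ × ℤ → ℕ
  | 0, p => if 7 * ONE < p.1 ∨ p.2 < -7 * ONE then 0 else 1
  | M + 1, p => if 7 * ONE < p.1 ∨ p.2 < -7 * ONE then 0 else
      if -3 * ONE ≤ p.1 ∧ p.2 ≤ 0 then 2 ^ (M + 1) else UB M (G0 p) + UB M (G1 p)

theorem UB_spec (M : ℕ) : ∀ (p : ℤ × ℤ) (s : ℝ), In p s → W M s ≤ UB M p := by
  induction M with
  | zero =>
    intro p s h
    unfold UB
    split_ifs with h1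
    · have : ¬ |s| ≤ 7 := by
        rw [not_le, lt_abs]
        unfold ONE at h1
        rcases h1 with h2 | h2
        · left
          have : (7 * 16777216 : ℝ) < p.1 := by exact_mod_cast h2
          linarith [h.1]
        · right
          have : (p.2 : ℝ) < -7 * 16777216 := by exact_mod_cast h2
          linarith [h.2]
      rw [W_big _ this]; simp
    · have := W_le 0 s
      simpa using this
  | succ M ih =>
    intro p s h
    unfold UB
    split_ifs with h1 h2
    · have : ¬ |s| ≤ 7 := by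
        rw [not_le, lt_abs]
        unfold ONE at h1
        rcases h1 with h2 | h2
        · left
          have : (7 * 16777216 : ℝ) < p.1 := by exact_mod_cast h2
          linarith [h.1]
        · right
          have : (p.2 : ℝ) < -7 * 16777216 := by exact_mod_cast h2
          linarith [h.2]
      rw [W_big _ this]; simp
    · have := W_le (M + 1) s
      exact_mod_cast this
    · by_cases h3 : |s| ≤ 7
      · have e : W (M + 1) s = W M (g0 s) + W M (g1 s) := by
          show (if |s| ≤ 7 then _ else _) = _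
          rw [if_pos h3]
        rw [e]
        push_cast
        exact add_le_add (ih _ _ (G0_in h)) (ih _ _ (G1_in h))
      · rw [W_big _ h3]; positivity

/-- an upper bound for `0.45 √(H / ONE)`, times `ONE` -/
def pen (H : ℕ) : ℕ → ℕ
  | 0 => H * 3 / 10 + 27 * 4194304 / 40 + 2
  | i + 1 => if 4 ^ (i + 1) * H < 16777216 then H * 2 ^ (i + 1) * 3 / 10 + 27 * 2 ^ (22 - (i + 1)) / 40 + 2
      else pen H i

/-- lower bound for `W`, times `ONE` -/
def LB : ℕ → ℤ × ℤ → ℕ
  | 0, p => if -3 * ONE ≤ p.1 ∧ p.2 ≤ 0 then 16777216 else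
      if -3 * ONE ≤ p.1 ∧ 10 * p.2 ≤ 19 * ONE then 16777216 - pen p.2.toNat 13 else
      if 19 * ONE < 10 * p.1 ∧ p.2 ≤ 4 * ONE then 8388608 else 0
  | M + 1, p => if -3 * ONE ≤ p.1 ∧ p.2 ≤ 0 then 16777216 * 2 ^ (M + 1) else
      if p.1 < -7 * ONE ∨ 7 * ONE < p.2 then 0 else LB M (G0 p) + LB M (G1 p)

theorem amgm {x t : ℝ} (hx : 0 ≤ x) (ht : 0 < t) : Real.sqrt x ≤ (x / t + t) / 2 := by
  apply sqrt_le_of (by positivity)
  have h : x = x / t * t := by field_simp
  have h2 := sq_nonneg (x / t - t)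
  nlinarith

theorem pen_term (H : ℕ) {a b : ℕ} (hab : a + b = 22) :
    0.45 * Real.sqrt ((H : ℝ) / 16777216) * 16777216 ≤ ((H * 2 ^ a * 3 / 10 + 27 * 2 ^ b / 40 + 2 : ℕ) : ℝ) := by
  have ht : (0 : ℝ) < 3 / 4 / 2 ^ a := by positivity
  have h1 := amgm (x := (H : ℝ) / 16777216) (by positivity) ht
  have h2 : ((H * 2 ^ a * 3 : ℕ) : ℝ) / 10 ≤ ((H * 2 ^ a * 3 / 10 : ℕ) : ℝ) + 1 := by
    have := Nat.lt_div_mul_add (a := H * 2 ^ a * 3) (b := 10) (by norm_num)
    have h3 : ((H * 2 ^ a * 3 : ℕ) : ℝ) ≤ ((H * 2 ^ a * 3 / 10 : ℕ) : ℝ) * 10 + 10 := by exact_mod_cast this.le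
    linarith
  have h3 : ((27 * 2 ^ b : ℕ) : ℝ) / 40 ≤ ((27 * 2 ^ b / 40 : ℕ) : ℝ) + 1 := by
    have := Nat.lt_div_mul_add (a := 27 * 2 ^ b) (b := 40) (by norm_num)
    have h3 : ((27 * 2 ^ b : ℕ) : ℝ) ≤ ((27 * 2 ^ b / 40 : ℕ) : ℝ) * 40 + 40 := by exact_mod_cast this.le
    linarith
  have h4 : (2 : ℝ) ^ a * 2 ^ b = 4194304 := by rw [← pow_add, hab]; norm_num
  have h5 : (2 : ℝ) ^ b = 4194304 / 2 ^ a := by rw [eq_div_iff (by positivity), mul_comm]; exact h4
  have e : 0.45 * (((H : ℝ) / 16777216 / (3 / 4 / 2 ^ a) + 3 / 4 / 2 ^ a) / 2) * 16777216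
      = ((H * 2 ^ a * 3 : ℕ) : ℝ) / 10 + ((27 * 2 ^ b : ℕ) : ℝ) / 40 := by
    push_cast
    rw [h5]
    field_simp
    ring
  push_cast at h2 h3 e ⊢
  nlinarith

theorem pen_ge (H : ℕ) : ∀ i ≤ 13, 0.45 * Real.sqrt ((H : ℝ) / 16777216) * 16777216 ≤ (pen H i : ℝ) := by
  intro i
  induction i with
  | zero =>
    intro _
    have := pen_term H (a := 0) (b := 22) rfl
    unfold pen
    norm_num at this ⊢
    exact this
  | succ i ih =>
    intro hi
    unfold pen
    split_ifs
    · exact pen_term H (a := i + 1) (b := 22 - (i + 1)) (by omega)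
    · exact ih (by omega)

theorem LB_spec (M : ℕ) : ∀ (p : ℤ × ℤ) (s : ℝ), In p s → ∀ K : ℕ,
    (LB M p : ℝ) * 2 ^ K ≤ 16777216 * W (M + K) s := by
  induction M with
  | zero =>
    intro p s h K
    have h2K : (0 : ℝ) < 2 ^ K := by positivity
    have hW := W_ge K s
    rw [zero_add]
    unfold LB
    split_ifs with h1 h2 h3
    · unfold ONE at h1
      have a1 : (-3 * 16777216 : ℝ) ≤ p.1 := by exact_mod_cast h1.1
      have a2 : (p.2 : ℝ) ≤ 0 := by exact_mod_cast h1.2
      rw [W_safe K s (by linarith [h.1]) (by linarith [h.2])]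
      push_cast; linarith
    · unfold ONE at h1 h2
      have a1 : (-3 * 16777216 : ℝ) ≤ p.1 := by exact_mod_cast h2.1
      have a2 : 10 * (p.2 : ℝ) ≤ 19 * 16777216 := by exact_mod_cast h2.2
      have hp0 : 0 < p.2 := by
        by_contra hle
        push Not at hle
        exact h1 ⟨h2.1, hle⟩
      obtain ⟨H, hH⟩ : ∃ H : ℕ, H = p.2.toNat := ⟨_, rfl⟩
      have hHp : (H : ℝ) = (p.2 : ℝ) := by
        have : (H : ℤ) = p.2 := by rw [hH]; exact Int.toNat_of_nonneg hp0.le
        exact_mod_cast this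
      rw [← hH]
      have h4 := pen_ge H 13 le_rfl
      have h5 : Ph s ≤ 0.45 * Real.sqrt s := Ph_small (by linarith [h.1]) (by norm_num; linarith [h.2])
      have h6 : Real.sqrt s ≤ Real.sqrt ((H : ℝ) / 16777216) := by
        apply Real.sqrt_le_sqrt
        rw [hHp]; linarith [h.2]
      have h7 : ((16777216 - pen H 13 : ℕ) : ℝ) ≤ 16777216 * (1 - Ph s) := by
        rcases Nat.le_total (pen H 13) 16777216 with h8 | h8
        · rw [Nat.cast_sub h8]
          push_cast
          nlinarith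
        · rw [Nat.sub_eq_zero_of_le h8]
          have := Ph_le_one s
          push_cast
          nlinarith
      nlinarith [mul_le_mul_of_nonneg_right h7 h2K.le]
    · unfold ONE at h3
      have a1 : (19 * 16777216 : ℝ) < 10 * p.1 := by exact_mod_cast h3.1
      have a2 : (p.2 : ℝ) ≤ 4 * 16777216 := by exact_mod_cast h3.2
      rw [Ph_half (by norm_num; linarith [h.1]) (by linarith [h.2])] at hW
      push_cast; linarith
    · have := W_nonneg K s
      push_cast; nlinarith
  | succ M ih =>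
    intro p s h K
    have h2K : (0 : ℝ) < 2 ^ K := by positivity
    unfold LB
    split_ifs with h1 h2
    · unfold ONE at h1
      have a1 : (-3 * 16777216 : ℝ) ≤ p.1 := by exact_mod_cast h1.1
      have a2 : (p.2 : ℝ) ≤ 0 := by exact_mod_cast h1.2
      have e : (2 : ℝ) ^ (M + 1 + K) = 2 ^ (M + 1) * 2 ^ K := pow_add _ _ _
      rw [W_safe _ s (by linarith [h.1]) (by linarith [h.2]), e]
      push_cast; linarith
    · have := W_nonneg (M + 1 + K) s
      push_cast; nlinarith
    · unfold ONE at h2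
      push Not at h2
      have a1 : (-7 * 16777216 : ℝ) ≤ p.1 := by exact_mod_cast h2.1
      have a2 : (p.2 : ℝ) ≤ 7 * 16777216 := by exact_mod_cast h2.2
      have e0 : M + 1 + K = (M + K) + 1 := by ring
      have e : W (M + 1 + K) s = W (M + K) (g0 s) + W (M + K) (g1 s) := by
        rw [e0]
        show (if |s| ≤ 7 then _ else _) = _
        rw [if_pos (by rw [abs_le]; constructor <;> linarith [h.1, h.2])]
      rw [e]
      have k1 := ih _ _ (G0_in h) K
      have k2 := ih _ _ (G1_in h) K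
      push_cast
      linarith

end Pool.Agent.Helper29K9.EF
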