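import Pool.Agent.H499R2.NDWord

/-!
# The limiting path of the scaled deviation

The scaled deviation of an orbit of Chamberland's map from an orbit of the `3x+1` map tends, for large
integers, to a path `S m 0, S m 1, …` which depends only on the parities of `m, T m, …`.  Here: the
Lyapunov function which shows that almost all paths are either absorbed by `[-2, 0]`, or tend to `0`,
or leave `[-7, 7]` for ever.
-/

set_option autoImplicit false

namespace Pool.Agent.Helper29K9.EF

open Finset Filter Topology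


open Pool.Agent.H499R2.ND (Tn Dn cnt cnt_mono parity_mod dn_res true_density AK rK rK_ge Tn_eq dn_AK)
open Pool.Agent.Helper894.Collatz (od)

/-- an even step -/
noncomputable def g0 (s : ℝ) : ℝ := (s - s ^ 2) / 4

/-- an odd step -/
noncomputable def g1 (s : ℝ) : ℝ := 9 / 4 * s + 3 / 4 * s ^ 2

/-- the limiting path -/
noncomputable def S (m : ℕ) : ℕ → ℝ
  | 0 => 1 / 16
  | k + 1 => if Tn^[k] m % 2 = 0 then g0 (S m k) else g1 (S m k)

theorem S_zero (m : ℕ) : S m 0 = 1 / 16 := rfl

theorem S_succ (m k : ℕ) : S m (k + 1) = if Tn^[k] m % 2 = 0 then g0 (S m k) else g1 (S m k) := rfl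

theorem S_mod (m K : ℕ) : ∀ k ≤ K, S (m % 2 ^ K) k = S m k := by
  intro k
  induction k with
  | zero => intro _; rfl
  | succ k ih =>
    intro hk
    rw [S_succ, S_succ, ih (by omega), parity_mod (by omega)]

theorem S_shift (r K : ℕ) {k : ℕ} (hk : k ≤ K) : S (r + 2 ^ K) k = S r k := by
  rw [← S_mod (r + 2 ^ K) K k hk, Nat.add_mod_right, S_mod r K k hk]

theorem flip (K r : ℕ) : Tn^[K] (r + 2 ^ K) % 2 = 1 - Tn^[K] r % 2 := by
  have h := Pool.Agent.Helper894.Collatz.flip_parity K r
  rwa [Tn_eq] at h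

/-- sums over the two continuations -/
theorem sum_step (F : ℝ → ℝ) (K : ℕ) : ∑ r ∈ range (2 ^ (K + 1)), F (S r (K + 1)) =
    ∑ r ∈ range (2 ^ K), (F (g0 (S r K)) + F (g1 (S r K))) := by
  rw [pow_succ 2, mul_two, sum_range_add, ← sum_add_distrib]
  refine sum_congr rfl fun r _ => ?_
  rw [add_comm (2 ^ K) r, S_succ, S_succ, S_shift r K le_rfl, flip]
  rcases Nat.mod_two_eq_zero_or_one (Tn^[K] r) with h | h
  · rw [h]; simp
  · rw [h]; simp [add_comm]

/-! ### large values -/

theorem g0_big {s : ℝ} (h : 7 < |s|) : 3 / 2 * |s| ≤ |g0 s| := by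
  unfold g0
  have e : (s - s ^ 2) / 4 = s * (1 - s) / 4 := by ring
  rw [e, abs_div, abs_mul, abs_of_pos (by norm_num : (0 : ℝ) < 4)]
  have h1 : 6 ≤ |1 - s| := by
    rcases lt_abs.1 h with h2 | h2
    · rw [abs_sub_comm, abs_of_pos (by linarith)]; linarith
    · rw [abs_of_pos (by linarith)]; linarith
  nlinarith [abs_nonneg s]

theorem g1_big {s : ℝ} (h : 7 < |s|) : 3 / 2 * |s| ≤ |g1 s| := by
  unfold g1
  have e : 9 / 4 * s + 3 / 4 * s ^ 2 = s * (9 / 4 + 3 / 4 * s) := by ring
  rw [e, abs_mul]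
  have h1 : 3 / 2 ≤ |9 / 4 + 3 / 4 * s| := by
    rcases lt_abs.1 h with h2 | h2
    · rw [abs_of_pos (by linarith)]; linarith
    · rw [abs_of_neg (by linarith)]; linarith
  nlinarith [abs_nonneg s]

theorem S_big {m k : ℕ} (h : 7 < |S m k|) (i : ℕ) : 7 * (3 / 2) ^ i ≤ |S m (k + i)| ∧ 7 < |S m (k + i)| := by
  induction i with
  | zero => exact ⟨by simpa using h.le, h⟩
  | succ i ih =>
    obtain ⟨h1, h2⟩ := ih
    have h3 : 3 / 2 * |S m (k + i)| ≤ |S m (k + (i + 1))| := by
      rw [← add_assoc, S_succ]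
      split_ifs
      · exact g0_big h2
      · exact g1_big h2
    refine ⟨?_, by linarith⟩
    rw [pow_succ]
    linarith

/-! ### the Lyapunov function -/

/-- the fourth root -/
noncomputable def rt (s : ℝ) : ℝ := Real.sqrt (Real.sqrt s)

theorem rt_nonneg (s : ℝ) : 0 ≤ rt s := Real.sqrt_nonneg _

theorem rt_mono {s t : ℝ} (h : s ≤ t) : rt s ≤ rt t := Real.sqrt_le_sqrt (Real.sqrt_le_sqrt h)

theorem rt_le {s t : ℝ} (ht : 0 ≤ t) (h : s ≤ t ^ 4) : rt s ≤ t := by
  unfold rt
  rw [show t ^ 4 = (t ^ 2) ^ 2 by ring] at h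
  have h1 : Real.sqrt s ≤ t ^ 2 := by
    rw [← Real.sqrt_sq (sq_nonneg t)]
    exact Real.sqrt_le_sqrt h
  rw [← Real.sqrt_sq ht]
  exact Real.sqrt_le_sqrt h1

theorem rt_pow (s : ℝ) (h : 0 ≤ s) : rt s ^ 4 = s := by
  unfold rt
  rw [show (4 : ℕ) = 2 * 2 by norm_num, pow_mul, Real.sq_sqrt (Real.sqrt_nonneg _), Real.sq_sqrt h]

theorem le_rt {s t : ℝ} (h : t ^ 4 ≤ s) : t ≤ rt s := by
  unfold rt
  apply Real.le_sqrt_of_sq_le
  apply Real.le_sqrt_of_sq_le
  nlinarith

/-- the Lyapunov function -/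
noncomputable def φ (s : ℝ) : ℝ :=
  if 0 < s then (if s ≤ 7 then rt s else 0)
  else if -2 ≤ s then 0 else if -3 ≤ s then 1 else if -7 ≤ s then 2 else 0

theorem φ_nonneg (s : ℝ) : 0 ≤ φ s := by
  unfold φ
  have := rt_nonneg s
  split_ifs <;> linarith

theorem φ_big {s : ℝ} (h : 7 < |s|) : φ s = 0 := by
  unfold φ
  rcases lt_abs.1 h with h2 | h2
  · rw [if_pos (by linarith), if_neg (by linarith)]
  · rw [if_neg (by linarith), if_neg (by linarith), if_neg (by linarith), if_neg (by linarith)]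

theorem φ_mid {s : ℝ} (h1 : -2 ≤ s) (h2 : s ≤ 0) : φ s = 0 := by
  unfold φ
  rw [if_neg (by linarith), if_pos h1]

theorem φ_le_rt {s : ℝ} (h : 0 < s) : φ s ≤ rt s := by
  unfold φ
  rw [if_pos h]
  split_ifs
  · exact le_rfl
  · exact rt_nonneg s

theorem φ_le_one {s : ℝ} (h : -3 ≤ s) (h0 : s ≤ 0) : φ s ≤ 1 := by
  unfold φ
  rw [if_neg (by linarith), if_pos h] at *
  split_ifs <;> norm_num

theorem φ_le_two {s : ℝ} (h0 : s ≤ 0) : φ s ≤ 2 := by
  unfold φ
  rw [if_neg (by linarith)]
  split_ifs <;> norm_num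

theorem φ_le_two' (s : ℝ) : φ s ≤ 2 := by
  rcases lt_or_ge 0 s with h | h
  · unfold φ
    rw [if_pos h]
    split_ifs with h2
    · exact rt_le (by norm_num) (by linarith)
    · norm_num
  · exact φ_le_two h

theorem φ_le_pos {s : ℝ} (h : 0 < s) : φ s ≤ 1.63 := by
  unfold φ
  rw [if_pos h]
  split_ifs with h2
  · exact rt_le (by norm_num) (by norm_num; linarith)
  · norm_num

theorem φ_out {s : ℝ} (h : s < -7) : φ s = 0 := φ_big (by rw [abs_of_neg (by linarith)]; linarith)

/-- **The Lyapunov inequality.** -/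
theorem lyap (s : ℝ) : φ (g0 s) + φ (g1 s) ≤ 1.94 * φ s := by
  rcases lt_or_ge 7 |s| with hb | hb
  · have h1 := g0_big hb
    have h2 := g1_big hb
    rw [φ_big hb, φ_big (by linarith), φ_big (by linarith)]
    norm_num
  obtain ⟨hb1, hb2⟩ := abs_le.1 hb
  rcases lt_or_ge 0 s with h0 | h0
  · have hs : φ s = rt s := by unfold φ; rw [if_pos h0, if_pos hb2]
    rw [hs]
    have hr0 := rt_nonneg s
    have hr4 := rt_pow s h0.le
    rcases le_or_gt s 1 with h1 | h1
    · -- `0 < s ≤ 1`
      obtain ⟨u, hu⟩ : ∃ u, u = rt s := ⟨_, rfl⟩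
      rw [← hu] at hr0 hr4 ⊢
      have b4 : ∀ x : ℝ, -1 ≤ x → 1 + 4 * x ≤ (1 + x) ^ 4 := by
        intro x hx
        have := one_add_mul_le_pow (a := x) (by linarith) 4
        push_cast at this
        linarith
      have k1 : rt (g0 s) ≤ u * (0.7072 * (1 - s / 4)) := by
        apply rt_le (by have : 0 ≤ 1 - s / 4 := by linarith
                        positivity)
        have h2 := b4 (-(s / 4)) (by linarith)
        have e : (u * (0.7072 * (1 - s / 4))) ^ 4 = u ^ 4 * 0.7072 ^ 4 * (1 + -(s / 4)) ^ 4 := by ring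
        rw [e, hr4]
        unfold g0
        have h3 : (s - s ^ 2) / 4 = s * (1 / 4) * (1 + 4 * -(s / 4)) := by ring
        rw [h3]
        have h4 : 0 ≤ 1 + 4 * -(s / 4) := by linarith
        apply mul_le_mul _ h2 h4 (by positivity)
        apply mul_le_mul_of_nonneg_left _ h0.le
        norm_num
      have k2 : rt (g1 s) ≤ u * (1.2248 * (1 + s / 12)) := by
        apply rt_le (by positivity)
        have h2 := b4 (s / 12) (by linarith)
        have e : (u * (1.2248 * (1 + s / 12))) ^ 4 = u ^ 4 * 1.2248 ^ 4 * (1 + s / 12) ^ 4 := by ring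
        rw [e, hr4]
        unfold g1
        have h3 : 9 / 4 * s + 3 / 4 * s ^ 2 = s * (9 / 4) * (1 + 4 * (s / 12)) := by ring
        rw [h3]
        apply mul_le_mul _ h2 (by positivity) (by positivity)
        apply mul_le_mul_of_nonneg_left _ h0.le
        norm_num
      have k3 : φ (g0 s) ≤ rt (g0 s) := by
        rcases lt_or_ge 0 (g0 s) with h | h
        · exact φ_le_rt h
        · have h5 : -2 ≤ g0 s := by unfold g0; nlinarith
          rw [φ_mid h5 h]
          exact rt_nonneg _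
      have k4 : φ (g1 s) ≤ rt (g1 s) := φ_le_rt (by unfold g1; positivity)
      nlinarith [mul_nonneg hr0 h0.le]
    · -- `1 < s ≤ 7`
      have hu1 : 1 ≤ rt s := le_rt (by linarith)
      have hg1 : 0 < g1 s := by unfold g1; positivity
      have hg0 : g0 s ≤ 0 := by unfold g0; nlinarith
      rcases le_or_gt s 1.91 with h2 | h2
      · have k1 : φ (g0 s) = 0 := φ_mid (by unfold g0; nlinarith) hg0
        have k2 := φ_le_pos hg1
        rw [k1]
        linarith
      · have k2 : φ (g1 s) = 0 := φ_big (by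
          rw [abs_of_pos hg1]; unfold g1; nlinarith)
        rw [k2]
        rcases le_or_gt s 3.37 with h3 | h3
        · have k1 : φ (g0 s) = 0 := φ_mid (by unfold g0; nlinarith) hg0
          rw [k1]; linarith
        · rcases le_or_gt s 4 with h4 | h4
          · have k1 := φ_le_one (s := g0 s) (by unfold g0; nlinarith) hg0
            linarith
          · have k1 := φ_le_two hg0
            have hu2 : 1.41 ≤ rt s := le_rt (by norm_num; linarith)
            linarith
  · rcases le_or_gt (-2) s with h1 | h1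
    · rw [φ_mid h1 h0, φ_mid (s := g0 s) (by unfold g0; nlinarith) (by unfold g0; nlinarith),
        φ_mid (s := g1 s) (by unfold g1; nlinarith [sq_nonneg (s + 3 / 2)]) (by unfold g1; nlinarith)]
      norm_num
    · have hg0 : g0 s ≤ 0 := by unfold g0; nlinarith
      rcases le_or_gt (-3) s with h2 | h2
      · have e : φ s = 1 := by
          unfold φ
          rw [if_neg (by linarith), if_neg (by linarith), if_pos h2]
        rw [e, φ_mid (s := g1 s) (by unfold g1; nlinarith [sq_nonneg (s + 3 / 2)]) (by unfold g1; nlinarith)]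
        have := φ_le_one (s := g0 s) (by unfold g0; nlinarith) hg0
        linarith
      · have e : φ s = 2 := by
          unfold φ
          rw [if_neg (by linarith), if_neg (by linarith), if_neg (by linarith), if_pos (by linarith)]
        rw [e]
        have hg1 : 0 < g1 s := by unfold g1; nlinarith
        have k2 := φ_le_pos hg1
        have k1 := φ_le_two hg0
        linarith

theorem sum_phi (K : ℕ) : ∑ r ∈ range (2 ^ K), φ (S r K) ≤ 1.94 ^ K * (1 / 2) := by
  induction K with
  | zero =>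
    simp only [pow_zero, range_one, sum_singleton, one_mul, S_zero]
    refine (φ_le_rt (by norm_num)).trans (rt_le (by norm_num) (by norm_num))
  | succ K ih =>
    rw [sum_step]
    calc ∑ r ∈ range (2 ^ K), (φ (g0 (S r K)) + φ (g1 (S r K)))
        ≤ ∑ r ∈ range (2 ^ K), 1.94 * φ (S r K) := sum_le_sum fun r _ => lyap _
      _ = 1.94 * ∑ r ∈ range (2 ^ K), φ (S r K) := by rw [mul_sum]
      _ ≤ 1.94 * (1.94 ^ K * (1 / 2)) := by linarith
      _ = 1.94 ^ (K + 1) * (1 / 2) := by ring

/-! ### the proportion of the paths which stay in `[-7, 7]` -/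

/-- the path stays in `[-7, 7]` up to time `K` -/
def Al (K n : ℕ) : Prop := ∀ k ≤ K, |S n k| ≤ 7

theorem Al_mod (K n : ℕ) : Al K (n % 2 ^ K) ↔ Al K n := by
  unfold Al
  refine forall_congr' fun k => ?_
  constructor
  · intro h hk; rw [← S_mod n K k hk]; exact h hk
  · intro h hk; rw [S_mod n K k hk]; exact h hk

/-- the proportion of the surviving words of length `K` -/
noncomputable def pK (K : ℕ) : ℝ := by
  classical
  exact (((range (2 ^ K)).filter (Al K)).card : ℝ) / 2 ^ K

theorem pK_nonneg (K : ℕ) : 0 ≤ pK K := by unfold pK; positivity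

/-- densities of unions of residue classes given by a property -/
theorem dn_prop {P : ℕ → Prop} {β : ℝ} (hP : ∀ n, P n ↔ P (Tn n)) (hβ : Dn P β) (K : ℕ)
    {Q : ℕ → Prop} [DecidablePred Q] (hQ : ∀ n, Q (n % 2 ^ K) ↔ Q n) :
    Dn (fun n => Q n ∧ P n) ((((range (2 ^ K)).filter Q).card : ℝ) / 2 ^ K * β) := by
  have h := dn_res hP hβ (q := 2 ^ K) (by positivity) (R := (range (2 ^ K)).filter Q)
    (fun r hr => mem_range.1 (mem_filter.1 hr).1)
  have e : (fun n => n % 2 ^ K ∈ (range (2 ^ K)).filter Q ∧ P n) = fun n => Q n ∧ P n := by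
    funext n
    rw [mem_filter, mem_range, hQ]
    have : n % 2 ^ K < 2 ^ K := Nat.mod_lt _ (by positivity)
    simp [this]
  rw [e] at h
  have e2 : (((range (2 ^ K)).filter Q).card : ℝ) / 2 ^ K * β
      = (((range (2 ^ K)).filter Q).card : ℝ) * (β / ((2 ^ K : ℕ) : ℝ)) := by
    push_cast
    ring
  rw [e2]
  exact h

theorem dn_Al {P : ℕ → Prop} {β : ℝ} (hP : ∀ n, P n ↔ P (Tn n)) (hβ : Dn P β) (K : ℕ) :
    Dn (fun n => Al K n ∧ P n) (pK K * β) := by
  classical
  have := dn_prop hP hβ K (Q := Al K) (Al_mod K)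
  unfold pK
  exact this

theorem pK_anti : Antitone pK := by
  apply antitone_nat_of_succ_le
  intro K
  have h1 := dn_Al (P := fun _ => True) (fun n => Iff.rfl) true_density K
  have h2 := dn_Al (P := fun _ => True) (fun n => Iff.rfl) true_density (K + 1)
  rw [mul_one] at h1 h2
  refine le_of_tendsto_of_tendsto' h2 h1 fun N => ?_
  apply div_le_div_of_nonneg_right _ (Nat.cast_nonneg N)
  exact cnt_mono N fun n _ _ ⟨h, _⟩ => ⟨fun k hk => h k (by omega), trivial⟩

/-- the limit -/
noncomputable def kap : ℝ := ⨅ K, pK K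

theorem pK_bdd : BddBelow (Set.range pK) := ⟨0, by rintro _ ⟨K, rfl⟩; exact pK_nonneg K⟩

theorem pK_tendsto : Tendsto pK atTop (𝓝 kap) := tendsto_atTop_ciInf pK_anti pK_bdd

theorem kap_le (K : ℕ) : kap ≤ pK K := ciInf_le pK_bdd K

/-- the unresolved words -/
theorem unresolved (K : ℕ) {t : ℝ} (ht : 0 < t) (ht1 : t ≤ 1) [DecidablePred fun r => Al K r ∧ ¬ (-2 ≤ S r K ∧ S r K ≤ t ^ 4)] :
    (((range (2 ^ K)).filter (fun r => Al K r ∧ ¬ (-2 ≤ S r K ∧ S r K ≤ t ^ 4))).card : ℝ) * t ≤ 1.94 ^ K * (1 / 2) := by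
  refine le_trans ?_ (sum_phi K)
  rw [← nsmul_eq_mul, ← sum_const]
  refine le_trans (sum_le_sum (f := fun _ => t) (g := fun r => φ (S r K)) fun r hr => ?_)
    (sum_le_sum_of_subset_of_nonneg (filter_subset _ _) fun _ _ _ => φ_nonneg _)
  obtain ⟨-, h1, h2⟩ := mem_filter.1 hr
  have h3 := abs_le.1 (h1 K le_rfl)
  show t ≤ φ (S r K)
  unfold φ
  by_cases h4 : 0 < S r K
  · rw [if_pos h4, if_pos h3.2]
    have h5 : ¬ S r K ≤ t ^ 4 := fun h => h2 ⟨by linarith, h⟩
    exact le_rt (by linarith)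
  · rw [if_neg h4]
    have h5 : ¬ (-2 ≤ S r K) := fun h => h2 ⟨h, by have : 0 < t ^ 4 := by positivity
                                                   linarith⟩
    rw [if_neg h5]
    split_ifs
    · exact ht1
    · linarith
    · exfalso; linarith [h3.1]

end Pool.Agent.Helper29K9.EF
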