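import Pool.Agent.Helper29K9.EF.Path
import Pool.Agent.Y296.CB.Fate

/-!
# The scaled deviation and its limiting path

One step of Chamberland's map near a large integer is close to one step of the limiting path.
-/

set_option autoImplicit false

namespace Pool.Agent.Helper29K9.EF

open Real

open Pool.Agent.H934R2.Ch (f T b cos_lb2 cos_ub4 pi_sq_lt pi_sq_gt f_even f_odd T_even T_odd T_iter_pos shadow
  df df_even_left deriv_f)
open Pool.Agent.Y296.CB (ts crit_zone)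
open Pool.Agent.H499R2.ND (Tn Tn_ge)

theorem Tn_T : Tn = T := by funext n; rfl

theorem u_bounds (e : ℝ) : 0 ≤ 1 - cos (π * e) ∧ 1 - cos (π * e) ≤ (π * e) ^ 2 / 2 ∧
    (π * e) ^ 2 / 2 - (π * e) ^ 4 / 24 ≤ 1 - cos (π * e) := by
  refine ⟨by linarith [Real.cos_le_one (π * e)], by linarith [cos_lb2 (π * e)], ?_⟩
  have h := cos_ub4 (abs_nonneg (π * e))
  rw [Real.cos_abs, sq_abs] at h
  have h2 : |π * e| ^ 4 = (π * e) ^ 4 := by
    rw [show (4 : ℕ) = 2 * 2 by norm_num, pow_mul, pow_mul, sq_abs]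
  rw [h2] at h
  linarith

/-- the two error terms -/
theorem err_bounds {M e s R : ℝ} (hM : 1 ≤ M) (hs : s = π ^ 2 * M / 4 * e) (hR : |s| ≤ R) :
    |s * (1 - cos (π * e))| ≤ R ^ 3 / M ^ 2 ∧
    |π ^ 2 * M ^ 2 / 32 * ((1 - cos (π * e)) - (π * e) ^ 2 / 2)| ≤ R ^ 4 / (4 * M ^ 2) := by
  obtain ⟨h1, h2, h3⟩ := u_bounds e
  have hpi := Real.pi_pos
  have hp2 := pi_sq_gt
  have hM0 : 0 < M := by linarith
  have hR0 : 0 ≤ R := (abs_nonneg s).trans hR
  have hs2 : s ^ 2 ≤ R ^ 2 := by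
    rw [← sq_abs s]; exact pow_le_pow_left₀ (abs_nonneg s) hR 2
  have hw : (π * e) ^ 2 * (π ^ 2 * M ^ 2) = 16 * s ^ 2 := by rw [hs]; ring
  have hw0 : 0 ≤ (π * e) ^ 2 := sq_nonneg _
  have hw2 : (π * e) ^ 2 * M ^ 2 ≤ 2 * R ^ 2 := by
    have : 9.8695 * ((π * e) ^ 2 * M ^ 2) ≤ (π * e) ^ 2 * (π ^ 2 * M ^ 2) := by
      have h5 : 0 ≤ (π * e) ^ 2 * M ^ 2 := by positivity
      nlinarith
    nlinarith
  constructor
  · rw [abs_mul, abs_of_nonneg h1, le_div_iff₀ (by positivity)]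
    have h4 : (1 - cos (π * e)) * M ^ 2 ≤ R ^ 2 := by
      have : (1 - cos (π * e)) * M ^ 2 ≤ (π * e) ^ 2 / 2 * M ^ 2 :=
        mul_le_mul_of_nonneg_right h2 (by positivity)
      linarith
    calc |s| * (1 - cos (π * e)) * M ^ 2 = |s| * ((1 - cos (π * e)) * M ^ 2) := by ring
      _ ≤ R * R ^ 2 := mul_le_mul hR h4 (by positivity) hR0
      _ = R ^ 3 := by ring
  · have h4 : |(1 - cos (π * e)) - (π * e) ^ 2 / 2| ≤ (π * e) ^ 4 / 24 := by
      rw [abs_le]; constructor <;> linarith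
    rw [abs_mul, abs_of_nonneg (by positivity), le_div_iff₀ (by positivity)]
    calc π ^ 2 * M ^ 2 / 32 * |(1 - cos (π * e)) - (π * e) ^ 2 / 2| * (4 * M ^ 2)
        ≤ π ^ 2 * M ^ 2 / 32 * ((π * e) ^ 4 / 24) * (4 * M ^ 2) := by
          apply mul_le_mul_of_nonneg_right _ (by positivity)
          exact mul_le_mul_of_nonneg_left h4 (by positivity)
      _ = ((π * e) ^ 2 * (π ^ 2 * M ^ 2)) * ((π * e) ^ 2 * M ^ 2) / 192 := by ring
      _ = 16 * s ^ 2 * ((π * e) ^ 2 * M ^ 2) / 192 := by rw [hw]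
      _ ≤ 16 * R ^ 2 * (2 * R ^ 2) / 192 := by
          apply div_le_div_of_nonneg_right _ (by norm_num)
          exact mul_le_mul (by linarith) hw2 (by positivity) (by positivity)
      _ ≤ R ^ 4 := by
          have : 0 ≤ R ^ 4 := by positivity
          nlinarith

theorem g_abs {s R : ℝ} (hR1 : 1 ≤ R) (hR : |s| ≤ R) : |g0 s| ≤ R ^ 2 ∧ |g1 s| ≤ 3 * R ^ 2 := by
  have hs2 : s ^ 2 ≤ R ^ 2 := by
    rw [← sq_abs s]; exact pow_le_pow_left₀ (abs_nonneg s) hR 2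
  obtain ⟨h1, h2⟩ := abs_le.1 hR
  have h3 := sq_nonneg s
  unfold g0 g1
  constructor
  · rw [abs_le]; constructor <;> nlinarith
  · rw [abs_le]; constructor <;> nlinarith

theorem step_even {k : ℕ} {x R : ℝ} (hR1 : 1 ≤ R)
    (hR : |ts (2 * k) ((2 * k : ℕ) - x)| ≤ R) :
    |ts k (k - f x) - g0 (ts (2 * k) ((2 * k : ℕ) - x))| ≤ 3 * R ^ 4 / (2 * ((2 * k : ℕ) : ℝ) + 1) := by
  obtain ⟨e, he⟩ : ∃ e : ℝ, e = (2 * k : ℕ) - x := ⟨_, rfl⟩
  have hx : x = (2 * k : ℕ) + -e := by rw [he]; ring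
  rw [← he] at hR ⊢
  obtain ⟨M, hM⟩ : ∃ M : ℝ, M = 2 * ((2 * k : ℕ) : ℝ) + 1 := ⟨_, rfl⟩
  have hM1 : 1 ≤ M := by rw [hM]; have : (0 : ℝ) ≤ ((2 * k : ℕ) : ℝ) := Nat.cast_nonneg _
                         linarith
  have hM0 : 0 < M := by linarith
  have hk : (k : ℝ) = (M - 1) / 4 := by rw [hM]; push_cast; ring
  obtain ⟨s, hs⟩ : ∃ s : ℝ, s = ts (2 * k) e := ⟨_, rfl⟩
  have hs' : s = π ^ 2 * M / 4 * e := by rw [hs, hM]; unfold ts; ring
  rw [← hM, ← hs]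
  rw [← hs] at hR
  obtain ⟨h1, h2⟩ := err_bounds hM1 hs' hR
  have hf := f_even k (-e)
  have e2 : π * -e = -(π * e) := by ring
  rw [← hx, e2, Real.cos_neg] at hf
  obtain ⟨u, hu⟩ : ∃ u : ℝ, u = 1 - cos (π * e) := ⟨_, rfl⟩
  rw [← hu] at h1 h2
  have hc : cos (π * e) = 1 - u := by rw [hu]; ring
  rw [hc] at hf
  have key : ts k (k - f x) - g0 s = 1 / M * g0 s + (1 + 1 / M) *
      (s * u / 4 - π ^ 2 * M ^ 2 / 32 * (u - (π * e) ^ 2 / 2)) := by
    rw [hf]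
    unfold ts g0
    rw [hk, hs']
    field_simp
    ring
  rw [key]
  obtain ⟨h3, -⟩ := g_abs hR1 hR
  have h4 : |1 / M * g0 s| ≤ R ^ 2 / M := by
    rw [abs_mul, abs_of_pos (by positivity), one_div, inv_mul_eq_div]
    exact div_le_div_of_nonneg_right h3 hM0.le
  have h5 : |s * u / 4 - π ^ 2 * M ^ 2 / 32 * (u - (π * e) ^ 2 / 2)| ≤ R ^ 3 / M ^ 2 / 4 + R ^ 4 / (4 * M ^ 2) := by
    refine (abs_sub _ _).trans (add_le_add ?_ h2)
    rw [abs_div, abs_of_pos (by norm_num : (0 : ℝ) < 4)]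
    exact div_le_div_of_nonneg_right h1 (by norm_num)
  have h6 : |(1 + 1 / M) * (s * u / 4 - π ^ 2 * M ^ 2 / 32 * (u - (π * e) ^ 2 / 2))|
      ≤ 2 * (R ^ 3 / M ^ 2 / 4 + R ^ 4 / (4 * M ^ 2)) := by
    rw [abs_mul, abs_of_pos (by positivity)]
    apply mul_le_mul _ h5 (abs_nonneg _) (by norm_num)
    have : 1 / M ≤ 1 := by rw [div_le_one hM0]; exact hM1
    linarith
  refine (abs_add_le _ _).trans ((add_le_add h4 h6).trans ?_)
  have h7 : R ^ 2 ≤ R ^ 4 := pow_le_pow_right₀ hR1 (by norm_num)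
  have h8 : R ^ 3 ≤ R ^ 4 := pow_le_pow_right₀ hR1 (by norm_num)
  have h9 : R ^ 3 / M ^ 2 ≤ R ^ 4 / M := by
    rw [div_le_div_iff₀ (by positivity) hM0]
    have : R ^ 3 * M ≤ R ^ 4 * M := mul_le_mul_of_nonneg_right h8 hM0.le
    have h10 : R ^ 4 * M * 1 ≤ R ^ 4 * M * M := mul_le_mul_of_nonneg_left hM1 (by positivity)
    nlinarith
  have h10 : R ^ 4 / (4 * M ^ 2) ≤ R ^ 4 / M / 4 := by
    rw [div_div, div_le_div_iff₀ (by positivity) (by positivity)]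
    have : R ^ 4 * M * 1 ≤ R ^ 4 * M * M := mul_le_mul_of_nonneg_left hM1 (by positivity)
    nlinarith
  have h11 : R ^ 2 / M ≤ R ^ 4 / M := div_le_div_of_nonneg_right h7 hM0.le
  have h12 : 3 * R ^ 4 / M = 3 * (R ^ 4 / M) := by ring
  rw [h12]
  have h13 : 0 ≤ R ^ 4 / M := by positivity
  linarith

theorem step_odd {k : ℕ} {x R : ℝ} (hR1 : 1 ≤ R)
    (hR : |ts (2 * k + 1) ((2 * k + 1 : ℕ) - x)| ≤ R) :
    |ts (3 * k + 2) ((3 * k + 2 : ℕ) - f x) - g1 (ts (2 * k + 1) ((2 * k + 1 : ℕ) - x))| ≤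
      5 * R ^ 4 / (2 * ((2 * k + 1 : ℕ) : ℝ) + 1) := by
  obtain ⟨e, he⟩ : ∃ e : ℝ, e = (2 * k + 1 : ℕ) - x := ⟨_, rfl⟩
  have hx : x = (2 * k + 1 : ℕ) + -e := by rw [he]; ring
  rw [← he] at hR ⊢
  obtain ⟨M, hM⟩ : ∃ M : ℝ, M = 2 * ((2 * k + 1 : ℕ) : ℝ) + 1 := ⟨_, rfl⟩
  have hM1 : 1 ≤ M := by rw [hM]; have : (0 : ℝ) ≤ ((2 * k + 1 : ℕ) : ℝ) := Nat.cast_nonneg _
                         linarith
  have hM0 : 0 < M := by linarith
  have hk : (k : ℝ) = (M - 3) / 4 := by rw [hM]; push_cast; ring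
  obtain ⟨s, hs⟩ : ∃ s : ℝ, s = ts (2 * k + 1) e := ⟨_, rfl⟩
  have hs' : s = π ^ 2 * M / 4 * e := by rw [hs, hM]; unfold ts; ring
  rw [← hM, ← hs]
  rw [← hs] at hR
  obtain ⟨h1, h2⟩ := err_bounds hM1 hs' hR
  have hf := f_odd k (-e)
  have e2 : π * -e = -(π * e) := by ring
  rw [← hx, e2, Real.cos_neg] at hf
  obtain ⟨u, hu⟩ : ∃ u : ℝ, u = 1 - cos (π * e) := ⟨_, rfl⟩
  rw [← hu] at h1 h2
  have hc : cos (π * e) = 1 - u := by rw [hu]; ring
  rw [hc] at hf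
  have key : ts (3 * k + 2) ((3 * k + 2 : ℕ) - f x) - g1 s = 1 / (3 * M) * g1 s + (1 + 1 / (3 * M)) *
      (-(3 / 4 * (s * u)) + 3 * (π ^ 2 * M ^ 2 / 32 * (u - (π * e) ^ 2 / 2))) := by
    rw [hf]
    unfold ts g1
    push_cast
    rw [hk, hs']
    field_simp
    ring
  rw [key]
  obtain ⟨-, h3⟩ := g_abs hR1 hR
  have h4 : |1 / (3 * M) * g1 s| ≤ R ^ 2 / M := by
    rw [abs_mul, abs_of_pos (by positivity), one_div, inv_mul_eq_div, div_le_div_iff₀ (by positivity) hM0]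
    nlinarith [mul_le_mul_of_nonneg_right h3 hM0.le]
  have h5 : |-(3 / 4 * (s * u)) + 3 * (π ^ 2 * M ^ 2 / 32 * (u - (π * e) ^ 2 / 2))|
      ≤ 3 / 4 * (R ^ 3 / M ^ 2) + 3 * (R ^ 4 / (4 * M ^ 2)) := by
    refine (abs_add_le _ _).trans (add_le_add ?_ ?_)
    · rw [abs_neg, abs_mul, abs_of_pos (by norm_num : (0 : ℝ) < 3 / 4)]
      exact mul_le_mul_of_nonneg_left h1 (by norm_num)
    · rw [abs_mul, abs_of_pos (by norm_num : (0 : ℝ) < 3)]
      exact mul_le_mul_of_nonneg_left h2 (by norm_num)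
  have h6 : |(1 + 1 / (3 * M)) * (-(3 / 4 * (s * u)) + 3 * (π ^ 2 * M ^ 2 / 32 * (u - (π * e) ^ 2 / 2)))|
      ≤ 2 * (3 / 4 * (R ^ 3 / M ^ 2) + 3 * (R ^ 4 / (4 * M ^ 2))) := by
    rw [abs_mul, abs_of_pos (by positivity)]
    apply mul_le_mul _ h5 (abs_nonneg _) (by norm_num)
    have : 1 / (3 * M) ≤ 1 := by rw [div_le_one (by positivity)]; linarith
    linarith
  refine (abs_add_le _ _).trans ((add_le_add h4 h6).trans ?_)
  have h7 : R ^ 2 ≤ R ^ 4 := pow_le_pow_right₀ hR1 (by norm_num)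
  have h8 : R ^ 3 ≤ R ^ 4 := pow_le_pow_right₀ hR1 (by norm_num)
  have h9 : R ^ 3 / M ^ 2 ≤ R ^ 4 / M := by
    rw [div_le_div_iff₀ (by positivity) hM0]
    have : R ^ 3 * M ≤ R ^ 4 * M := mul_le_mul_of_nonneg_right h8 hM0.le
    have h10 : R ^ 4 * M * 1 ≤ R ^ 4 * M * M := mul_le_mul_of_nonneg_left hM1 (by positivity)
    nlinarith
  have h10 : R ^ 4 / (4 * M ^ 2) ≤ R ^ 4 / M / 4 := by
    rw [div_div, div_le_div_iff₀ (by positivity) (by positivity)]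
    have : R ^ 4 * M * 1 ≤ R ^ 4 * M * M := mul_le_mul_of_nonneg_left hM1 (by positivity)
    nlinarith
  have h11 : R ^ 2 / M ≤ R ^ 4 / M := div_le_div_of_nonneg_right h7 hM0.le
  have h12 : 5 * R ^ 4 / M = 5 * (R ^ 4 / M) := by ring
  rw [h12]
  have h13 : 0 ≤ R ^ 4 / M := by positivity
  linarith

/-- **One step.** -/
theorem step_any {a : ℕ} {x R : ℝ} (hR1 : 1 ≤ R) (hR : |ts a (a - x)| ≤ R) :
    |ts (Tn a) (Tn a - f x) - (if a % 2 = 0 then g0 (ts a (a - x)) else g1 (ts a (a - x)))| ≤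
      5 * R ^ 4 / (2 * (a : ℝ) + 1) := by
  rw [Tn_T]
  rcases Nat.even_or_odd' a with ⟨k, rfl | rfl⟩
  · rw [if_pos (by omega), T_even]
    refine (step_even hR1 hR).trans ?_
    apply div_le_div_of_nonneg_right _ (by positivity)
    have : 0 ≤ R ^ 4 := by positivity
    linarith
  · rw [if_neg (by omega), T_odd]
    exact step_odd hR1 hR

/-- the scaled deviations of the orbit of `c` from the orbit of `m` (starting with `f c` and `m`) -/
noncomputable def sc (m : ℕ) (c : ℝ) (k : ℕ) : ℝ := ts (Tn^[k] m) ((Tn^[k] m : ℕ) - f^[k + 1] c)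

theorem iter_ge (m k : ℕ) : m ≤ 2 ^ k * Tn^[k] m := by
  induction k with
  | zero => simp
  | succ k ih =>
    rw [Function.iterate_succ_apply', pow_succ]
    have := Tn_ge (Tn^[k] m)
    calc m ≤ 2 ^ k * Tn^[k] m := ih
      _ ≤ 2 ^ k * (2 * Tn (Tn^[k] m)) := Nat.mul_le_mul_left _ this
      _ = 2 ^ k * 2 * Tn (Tn^[k] m) := by ring

theorem lip {s S' R : ℝ} (hR : 8 ≤ R) (h1 : |s| ≤ R) (h2 : |S'| ≤ R) :
    |g0 s - g0 S'| ≤ 4 * R * |s - S'| ∧ |g1 s - g1 S'| ≤ 4 * R * |s - S'| := by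
  obtain ⟨a1, a2⟩ := abs_le.1 h1
  obtain ⟨b1, b2⟩ := abs_le.1 h2
  unfold g0 g1
  constructor
  · have e : (s - s ^ 2) / 4 - (S' - S' ^ 2) / 4 = (s - S') * ((1 - s - S') / 4) := by ring
    rw [e, abs_mul, mul_comm]
    apply mul_le_mul_of_nonneg_right _ (abs_nonneg _)
    rw [abs_le]; constructor <;> linarith
  · have e : (9 / 4 * s + 3 / 4 * s ^ 2) - (9 / 4 * S' + 3 / 4 * S' ^ 2) = (s - S') * (9 / 4 + 3 / 4 * (s + S')) := by ring
    rw [e, abs_mul, mul_comm]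
    apply mul_le_mul_of_nonneg_right _ (abs_nonneg _)
    rw [abs_le]; constructor <;> linarith

/-- **The orbit is close to the limiting path** for a bounded time, if the integer is large. -/
theorem close {R : ℝ} (hR : 8 ≤ R) (c : ℕ → ℝ)
    (h0 : ∀ η : ℝ, 0 < η → ∃ m0 : ℕ, ∀ m, m0 ≤ m → |sc m (c m) 0 - 1 / 16| ≤ η) (L : ℕ) :
    ∀ η : ℝ, 0 < η → ∃ m0 : ℕ, ∀ m, m0 ≤ m → (∀ k < L, |sc m (c m) k| ≤ R ∨ |S m k| ≤ 7) →
      |sc m (c m) L - S m L| ≤ η := by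
  induction L with
  | zero =>
    intro η hη
    obtain ⟨m0, hm0⟩ := h0 η hη
    exact ⟨m0, fun m hm _ => hm0 m hm⟩
  | succ L ih =>
    intro η hη
    have hR0 : 0 < R := by linarith
    obtain ⟨m0, hm0⟩ := ih (min 1 (η / (16 * R))) (lt_min one_pos (by positivity))
    obtain ⟨m1, hm1⟩ := exists_nat_ge (5 * (R + 1) ^ 4 * 2 ^ L * (2 / η))
    refine ⟨max m0 (max m1 1), fun m hm hk => ?_⟩
    have hmm0 : m0 ≤ m := (le_max_left _ _).trans hm
    have hmm1 : m1 ≤ m := (le_max_left _ _).trans ((le_max_right _ _).trans hm)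
    have hmm2 : 1 ≤ m := (le_max_right _ _).trans ((le_max_right _ _).trans hm)
    have h1 := hm0 m hmm0 (fun k h => hk k (by omega))
    obtain ⟨s, hs⟩ : ∃ s : ℝ, s = sc m (c m) L := ⟨_, rfl⟩
    rw [← hs] at h1
    have h1a : |s - S m L| ≤ 1 := h1.trans (min_le_left _ _)
    have h1b : |s - S m L| ≤ η / (16 * R) := h1.trans (min_le_right _ _)
    have h2 : |s| ≤ R + 1 ∧ |S m L| ≤ R + 1 := by
      have h3 : |s| ≤ |S m L| + |s - S m L| := by
        have := abs_add_le (S m L) (s - S m L)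
        rwa [show S m L + (s - S m L) = s by ring] at this
      have h4 : |S m L| ≤ |s| + |s - S m L| := by
        have := abs_sub (s) (s - S m L)
        rwa [show s - (s - S m L) = S m L by ring] at this
      rcases hk L (by omega) with h5 | h5
      · rw [← hs] at h5
        constructor <;> linarith
      · constructor <;> linarith
    have h3 := step_any (a := Tn^[L] m) (x := f^[L + 1] (c m)) (R := R + 1) (by linarith)
      (by have : ts (Tn^[L] m) ((Tn^[L] m : ℕ) - f^[L + 1] (c m)) = s := by rw [hs]; rfl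
          rw [this]; exact h2.1)
    have e1 : ts (Tn^[L] m) ((Tn^[L] m : ℕ) - f^[L + 1] (c m)) = s := by rw [hs]; rfl
    rw [e1] at h3
    have e2 : ts (Tn (Tn^[L] m)) ((Tn (Tn^[L] m) : ℕ) - f (f^[L + 1] (c m))) = sc m (c m) (L + 1) := by
      unfold sc
      rw [Function.iterate_succ_apply' Tn, Function.iterate_succ_apply' f (L + 1)]
    rw [e2] at h3
    have h4 : 5 * (R + 1) ^ 4 / (2 * ((Tn^[L] m : ℕ) : ℝ) + 1) ≤ η / 2 := by
      have h5 := iter_ge m L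
      have h6 : (m : ℝ) ≤ 2 ^ L * ((Tn^[L] m : ℕ) : ℝ) := by exact_mod_cast h5
      have h7 : (m1 : ℝ) ≤ m := by exact_mod_cast hmm1
      rw [div_le_iff₀ (by positivity)]
      have h8 : 5 * (R + 1) ^ 4 * 2 ^ L * (2 / η) ≤ 2 ^ L * ((Tn^[L] m : ℕ) : ℝ) := by linarith
      have h9 : 5 * (R + 1) ^ 4 * (2 / η) ≤ ((Tn^[L] m : ℕ) : ℝ) := by
        have : (0 : ℝ) < 2 ^ L := by positivity
        nlinarith
      have h10 : 5 * (R + 1) ^ 4 * (2 / η) = 5 * (R + 1) ^ 4 * 2 / η := by ring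
      rw [h10, div_le_iff₀ hη] at h9
      have h11 : 0 ≤ ((Tn^[L] m : ℕ) : ℝ) := Nat.cast_nonneg _
      nlinarith
    have h5 : |(if Tn^[L] m % 2 = 0 then g0 s else g1 s) - S m (L + 1)| ≤ η / 2 := by
      rw [S_succ]
      obtain ⟨l1, l2⟩ := lip (R := R + 1) (by linarith) h2.1 h2.2
      have h6 : 4 * (R + 1) * |s - S m L| ≤ η / 2 := by
        calc 4 * (R + 1) * |s - S m L| ≤ 4 * (R + 1) * (η / (16 * R)) :=
              mul_le_mul_of_nonneg_left h1b (by positivity)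
          _ ≤ 8 * R * (η / (16 * R)) := by
              apply mul_le_mul_of_nonneg_right _ (by positivity)
              linarith
          _ = η / 2 := by field_simp; norm_num
      split_ifs
      · exact l1.trans h6
      · exact l2.trans h6
    calc |sc m (c m) (L + 1) - S m (L + 1)|
        = |(sc m (c m) (L + 1) - (if Tn^[L] m % 2 = 0 then g0 s else g1 s)) +
            ((if Tn^[L] m % 2 = 0 then g0 s else g1 s) - S m (L + 1))| := by congr 1; ring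
      _ ≤ _ := abs_add_le _ _
      _ ≤ η / 2 + η / 2 := add_le_add (h3.trans h4) h5
      _ = η := by ring

/-- the scaled position of the critical point -/
theorem crit_half {m : ℕ} (hm : 1 ≤ m) {c : ℝ} (hc : |c - (2 * m : ℕ)| < 1 / 2) (h : deriv f c = 0) :
    |ts (2 * m) ((2 * m : ℕ) - c) - 1 / 2| ≤ 20 / m := by
  obtain ⟨h1, h2⟩ := crit_zone hm hc h
  obtain ⟨e, he⟩ : ∃ e : ℝ, e = (2 * m : ℕ) - c := ⟨_, rfl⟩
  have hce : c = (2 * m : ℕ) - e := by rw [he]; ring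
  have he0 : 0 ≤ e := by rw [he]; linarith
  rw [← he] at h2 ⊢
  rw [deriv_f, hce, df_even_left] at h
  have hpi := Real.pi_pos
  have hp2 := pi_sq_lt
  have hp2' := pi_sq_gt
  have hpi3 : π < 3.15 := Real.pi_lt_d2
  have hmR : (1 : ℝ) ≤ m := by exact_mod_cast hm
  obtain ⟨M, hM⟩ : ∃ M : ℝ, M = 4 * (m : ℝ) + 1 := ⟨_, rfl⟩
  have hM5 : 5 ≤ M := by linarith
  rw [← hM] at h2
  have hts : ts (2 * m) e = π * M / 4 * (π * e) := by
    unfold ts; rw [hM]; push_cast; ring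
  rw [hts]
  obtain ⟨x, hx⟩ : ∃ x : ℝ, x = π * e := ⟨_, rfl⟩
  rw [← hx] at h ⊢
  have hx0 : 0 ≤ x := by rw [hx]; positivity
  have hxM : x * M ≤ 3.5 := by
    have : x * M = π * (M * e) := by rw [hx]; ring
    rw [this]
    have h5 : 0 ≤ M * e := by positivity
    nlinarith
  have hsx := Real.sin_le hx0
  have hs3 := Pool.Agent.H934R2.Ch.sin_lb3 hx0
  have hc1 := Real.cos_le_one x
  have hc2 := cos_lb2 x
  -- the equation
  have heq : π * M / 4 * x - 1 / 2 = (1 - cos x) / 2 + π * M / 4 * (x - sin x) + x / 2 * sin x := by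
    have : π * (4 * (m : ℝ) - 2 * e + 1) / 4 * sin x = π * M / 4 * sin x - x / 2 * sin x := by
      rw [hM, hx]; ring
    rw [this] at h
    linarith
  rw [heq]
  have hM0 : 0 < M := by linarith
  have hx2 : x ≤ 0.7 := by nlinarith
  have hsin0 : 0 ≤ sin x := by
    have : x ^ 3 / 6 ≤ x := by nlinarith [mul_nonneg hx0 hx0, mul_nonneg (mul_nonneg hx0 hx0) hx0]
    linarith
  have k1 : (1 - cos x) / 2 ≤ x ^ 2 / 4 := by linarith
  have k2 : π * M / 4 * (x - sin x) ≤ π * M / 4 * (x ^ 3 / 6) :=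
    mul_le_mul_of_nonneg_left (by linarith) (by positivity)
  have k3 : x / 2 * sin x ≤ x / 2 * x := mul_le_mul_of_nonneg_left hsx (by positivity)
  have k4 : π * M / 4 * (x ^ 3 / 6) ≤ 0.47 * x ^ 2 := by
    have : π * M / 4 * (x ^ 3 / 6) = π * (x * M) * x ^ 2 / 24 := by ring
    rw [this]
    have h6 : π * (x * M) ≤ 3.15 * 3.5 := by
      apply mul_le_mul hpi3.le hxM (by positivity) (by norm_num)
    have h7 : 0 ≤ x ^ 2 := sq_nonneg x
    nlinarith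
  have k5 : x ^ 2 ≤ 0.7 * x := by nlinarith
  have k6 : x * m ≤ 1 := by
    have : x * (4 * m) ≤ x * M := mul_le_mul_of_nonneg_left (by linarith) hx0
    nlinarith
  have k0 : 0 ≤ π * M / 4 * (x - sin x) := mul_nonneg (by positivity) (by linarith)
  rw [abs_of_nonneg (by
    have : 0 ≤ x / 2 * sin x := by positivity
    linarith), le_div_iff₀ (by linarith)]
  have k7 : (1 - cos x) / 2 + π * M / 4 * (x - sin x) + x / 2 * sin x ≤ 2 * x := by nlinarith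
  nlinarith

/-- the first scaled deviation -/
theorem first {c : ℕ → ℝ} (hc : ∀ m : ℕ, 1 ≤ m → |c m - (2 * m : ℕ)| < 1 / 2 ∧ deriv f (c m) = 0) :
    ∀ η : ℝ, 0 < η → ∃ m0 : ℕ, ∀ m, m0 ≤ m → |sc m (c m) 0 - 1 / 16| ≤ η := by
  intro η hη
  obtain ⟨m0, hm0⟩ := exists_nat_ge (100 / η)
  refine ⟨max m0 40, fun m hm => ?_⟩
  have hmm0 : (m0 : ℝ) ≤ m := by exact_mod_cast (le_max_left _ _).trans hm
  have hm40 : 40 ≤ m := (le_max_right _ _).trans hm
  have hmR : (40 : ℝ) ≤ m := by exact_mod_cast hm40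
  obtain ⟨h1, h2⟩ := hc m (by omega)
  have h3 := crit_half (by omega) h1 h2
  obtain ⟨t, ht⟩ : ∃ t : ℝ, t = ts (2 * m) ((2 * m : ℕ) - c m) := ⟨_, rfl⟩
  have h4 : (20 : ℝ) / m ≤ 1 / 2 := by rw [div_le_iff₀ (by linarith)]; linarith
  have h5 : |t| ≤ 1 := by
    rw [← ht] at h3
    have := abs_le.1 (h3.trans h4)
    rw [abs_le]; constructor <;> linarith
  have h6 := step_even (k := m) (x := c m) (R := 1) le_rfl (by rw [← ht]; exact h5)
  have e : sc m (c m) 0 = ts m (m - f (c m)) := rfl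
  rw [← ht] at h6 h3
  rw [e]
  have h7 : |g0 t - 1 / 16| ≤ 20 / m := by
    have e2 : g0 t - 1 / 16 = -((t - 1 / 2) ^ 2 / 4) := by unfold g0; ring
    rw [e2, abs_neg, abs_of_nonneg (by positivity)]
    have h8 : (t - 1 / 2) ^ 2 ≤ |t - 1 / 2| := by
      rw [← sq_abs]
      have h9 : |t - 1 / 2| ≤ 1 := by linarith
      have h10 := abs_nonneg (t - 1 / 2)
      nlinarith
    linarith [abs_nonneg (t - 1 / 2)]
  have h8 : (3 : ℝ) * 1 ^ 4 / (2 * ((2 * m : ℕ) : ℝ) + 1) ≤ 20 / m := by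
    push_cast
    rw [div_le_div_iff₀ (by linarith) (by linarith)]
    linarith
  calc |ts m (m - f (c m)) - 1 / 16| = |(ts m (m - f (c m)) - g0 t) + (g0 t - 1 / 16)| := by congr 1; ring
    _ ≤ _ := abs_add_le _ _
    _ ≤ 20 / m + 20 / m := add_le_add (h6.trans h8) h7
    _ ≤ η := by
        rw [← add_div, div_le_iff₀ (by linarith)]
        have h9 : 100 / η ≤ m := hm0.trans hmm0
        rw [div_le_iff₀ hη] at h9
        linarith

end Pool.Agent.Helper29K9.EF
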