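import Pool.Agent.Helper29K9.EF.Real

/-!
# Following for ever from a resolved state

An orbit in the trap interval follows for ever; an orbit just below an integer `a` whose scaled
deviation is small compared with the maximal excursion of the orbit of `a` follows for ever.
-/

set_option autoImplicit false

namespace Pool.Agent.Helper29K9.EF

open Real

open Pool.Agent.H934R2.Ch (f T b cos_lb2 cos_ub4 pi_sq_lt pi_sq_gt f_even f_odd T_even T_odd T_iter_pos shadow trap)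
open Pool.Agent.Y296.CB (ts V V_even V_odd odd_step' even_over ts_nonneg Trap)
open Pool.Agent.H499R2.ND (Tn Tn_ge)

/-- close to the integer `h` -/
def Near (K : ℝ) (h : ℕ) (y : ℝ) : Prop := |y - h| ≤ K / (2 * (h : ℝ) + 1)

theorem Near_mono {K K' : ℝ} (hK : K ≤ K') {h : ℕ} {y : ℝ} (hn : Near K h y) : Near K' h y :=
  hn.trans (div_le_div_of_nonneg_right hK (by positivity))

theorem near_trap {h : ℕ} {y : ℝ} (hy : y ∈ Set.Icc (h : ℝ) (h + b h)) : Near 1.2 h y := by
  obtain ⟨h1, h2⟩ := hy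
  unfold Near
  rw [abs_of_nonneg (by linarith)]
  refine (show y - h ≤ b h by linarith).trans ?_
  unfold b
  rw [div_le_div_iff₀ (by positivity) (by positivity)]
  have : (0 : ℝ) ≤ h := Nat.cast_nonneg h
  nlinarith

theorem near_ts {R : ℝ} {h : ℕ} {y : ℝ} (hy : |ts h (h - y)| ≤ R) : Near (R / 2.467) h y := by
  unfold Near
  unfold ts at hy
  have hp2 := pi_sq_gt
  have hM : 0 < 2 * (h : ℝ) + 1 := by positivity
  rw [abs_mul, abs_of_pos (by positivity), abs_sub_comm] at hy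
  rw [le_div_iff₀ hM]
  rw [le_div_iff₀ (by norm_num)]
  have h0 := abs_nonneg (y - (h : ℝ))
  have h1 : 0 ≤ |y - (h : ℝ)| * (2 * h + 1) := by positivity
  nlinarith

theorem ts_of_near {K : ℝ} {h : ℕ} {y : ℝ} (hy : Near K h y) : |ts h (h - y)| ≤ 2.468 * K := by
  unfold Near at hy
  unfold ts
  have hp2 := pi_sq_lt
  have hM : 0 < 2 * (h : ℝ) + 1 := by positivity
  rw [abs_mul, abs_of_pos (by positivity), abs_sub_comm]
  rw [le_div_iff₀ hM] at hy
  have h0 := abs_nonneg (y - (h : ℝ))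
  have h1 : 0 ≤ |y - (h : ℝ)| * (2 * h + 1) := by positivity
  nlinarith

/-- below `n`, with a bound for the Lyapunov function -/
def Bel (A : ℝ) (n : ℕ) (x : ℝ) : Prop := x < n ∧ V n (n - x) ≤ A * n

theorem ts_le' {A lam : ℝ} {a n : ℕ} (ha : 1 ≤ a) (hlam : 1 ≤ lam) (hA : A * a * (π ^ 2 * (2 * (a : ℝ) + 1) / 4) * lam ^ 2 ≤ 1.6)
    (hA0 : 0 ≤ A) (hn : (n : ℝ) ≤ lam * a) {e : ℝ} (h0 : 0 ≤ e) (h : V n e ≤ A * n) : ts n e ≤ 2.8 := by
  have haR : (1 : ℝ) ≤ a := by exact_mod_cast ha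
  have hn0 : (0 : ℝ) ≤ n := by positivity
  have hpi := Real.pi_pos
  have ht0 := ts_nonneg n h0
  have h1 : π ^ 2 * (2 * (n : ℝ) + 1) / 4 * V n e ≤ π ^ 2 * (2 * (n : ℝ) + 1) / 4 * (A * n) :=
    mul_le_mul_of_nonneg_left h (by positivity)
  have h2 : π ^ 2 * (2 * (n : ℝ) + 1) / 4 * V n e = ts n e / (1 + 4 / 15 * ts n e) := by
    unfold V; rw [← mul_div_assoc]; rfl
  have h3 : (2 * (n : ℝ) + 1) * n ≤ lam ^ 2 * ((2 * a + 1) * a) := by
    have h4 : 2 * (n : ℝ) + 1 ≤ lam * (2 * a + 1) := by nlinarith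
    calc (2 * (n : ℝ) + 1) * n ≤ (lam * (2 * a + 1)) * (lam * a) :=
          mul_le_mul h4 hn hn0 (by positivity)
      _ = lam ^ 2 * ((2 * a + 1) * a) := by ring
  have h4 : π ^ 2 * (2 * (n : ℝ) + 1) / 4 * (A * n) ≤ 1.6 := by
    calc π ^ 2 * (2 * (n : ℝ) + 1) / 4 * (A * n) = π ^ 2 / 4 * A * ((2 * n + 1) * n) := by ring
      _ ≤ π ^ 2 / 4 * A * (lam ^ 2 * ((2 * a + 1) * a)) := mul_le_mul_of_nonneg_left h3 (by positivity)
      _ = A * a * (π ^ 2 * (2 * (a : ℝ) + 1) / 4) * lam ^ 2 := by ring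
      _ ≤ 1.6 := hA
  rw [h2] at h1
  have h5 := h1.trans h4
  rw [div_le_iff₀ (by positivity)] at h5
  nlinarith

theorem step_bel {A : ℝ} {n : ℕ} (hn1 : 1 ≤ n) {x : ℝ} (h : Bel A n x) (ht : ts n (n - x) ≤ 2.8) :
    Bel A (T n) (f x) ∨ Trap (T n) (f x) := by
  obtain ⟨hx, hV⟩ := h
  obtain ⟨e, he⟩ : ∃ e : ℝ, e = n - x := ⟨_, rfl⟩
  have hxe : x = n - e := by rw [he]; ring
  have he0 : 0 < e := by rw [he]; linarith
  rw [← he] at hV ht
  rw [hxe]
  rcases Nat.even_or_odd' n with ⟨k, rfl | rfl⟩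
  · have hk : 1 ≤ k := by omega
    rw [T_even]
    rcases lt_or_ge (f ((2 * k : ℕ) - e)) k with h1 | h1
    · left
      refine ⟨h1, (V_even k hk he0.le ht h1.le).trans ?_⟩
      have : A * ((2 * k : ℕ) : ℝ) = 2 * (A * k) := by push_cast; ring
      rw [this] at hV
      linarith
    · right
      exact ⟨h1, even_over k hk he0.le ht h1⟩
  · left
    rw [T_odd]
    have h1 := V_odd k he0.le
    have h2 := (odd_step' k he0.le).1
    have hA0 : 0 ≤ A := by
      have h3 := Pool.Agent.Y296.CB.V_nonneg (2 * k + 1) he0.le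
      by_contra hneg
      push Not at hneg
      have h4 : A * ((2 * k + 1 : ℕ) : ℝ) < 0 := mul_neg_of_neg_of_pos hneg (by positivity)
      linarith
    refine ⟨?_, ?_⟩
    · push_cast at h2 ⊢; linarith
    · have e1 : (((3 * k + 2 : ℕ) : ℝ)) = 3 * (k : ℝ) + 2 := by push_cast; ring
      rw [e1]
      refine h1.trans ?_
      have e2 : A * ((2 * k + 1 : ℕ) : ℝ) = A * (2 * k + 1) := by push_cast; ring
      rw [e2] at hV
      nlinarith

/-- **Following from a resolved state.** -/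
theorem safe {a : ℕ} (ha : 1 ≤ a) {lam : ℝ} (hlam : 1 ≤ lam) (hT : ∀ k, ((Tn^[k] a : ℕ) : ℝ) ≤ lam * a) {y : ℝ}
    (h1 : -2.05 ≤ ts a (a - y)) (h2 : ts a (a - y) * lam ^ 2 ≤ 1.6) (k : ℕ) : Near 1.2 (Tn^[k] a) (f^[k] y) := by
  have haR : (1 : ℝ) ≤ a := by exact_mod_cast ha
  have hp2 := pi_sq_gt
  have hpi := Real.pi_pos
  rw [Tn_T] at hT ⊢
  rcases le_or_gt (a : ℝ) y with h | h
  · -- the trap
    have h3 : y ∈ Set.Icc (a : ℝ) (a + b a) := by
      refine ⟨h, ?_⟩
      have h4 : π ^ 2 * ((y - a) * (2 * (a : ℝ) + 1)) ≤ 8.2 := by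
        unfold ts at h1; nlinarith
      have h5 : 0 ≤ (y - a) * (2 * (a : ℝ) + 1) := mul_nonneg (by linarith) (by linarith)
      have h6 : (y - a) * (2 * (a : ℝ) + 1) ≤ 5 / 6 := by nlinarith
      unfold b
      have h7 : y - a ≤ 5 / (6 * (2 * (a : ℝ) + 1)) := by
        rw [le_div_iff₀ (by positivity)]; linarith
      linarith
    exact near_trap (shadow ha h3 k)
  · -- below
    obtain ⟨e, he⟩ : ∃ e : ℝ, e = a - y := ⟨_, rfl⟩
    have he0 : 0 < e := by rw [he]; linarith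
    rw [← he] at h1 h2
    obtain ⟨A, hA⟩ : ∃ A : ℝ, A = V a e / a := ⟨_, rfl⟩
    have hV0 := Pool.Agent.Y296.CB.V_nonneg a he0.le
    have hA0 : 0 ≤ A := by rw [hA]; positivity
    have hAa : A * a = V a e := by rw [hA]; field_simp
    have hc : A * a * (π ^ 2 * (2 * (a : ℝ) + 1) / 4) * lam ^ 2 ≤ 1.6 := by
      rw [hAa]
      have h3 := Pool.Agent.Y296.CB.V_le a he0.le
      have h4 : V a e * (π ^ 2 * (2 * (a : ℝ) + 1) / 4) ≤ ts a e := by
        unfold ts
        rw [mul_comm]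
        exact mul_le_mul_of_nonneg_left h3 (by positivity)
      exact (mul_le_mul_of_nonneg_right h4 (by positivity)).trans h2
    have key : ∀ k, Bel A (T^[k] a) (f^[k] y) ∨ Trap (T^[k] a) (f^[k] y) := by
      intro k
      induction k with
      | zero => left; exact ⟨h, by simp only [Function.iterate_zero, id]; rw [← he, hAa]⟩
      | succ k ih =>
        rw [Function.iterate_succ_apply', Function.iterate_succ_apply']
        rcases ih with h3 | h3
        · exact step_bel (T_iter_pos ha k) h3 (ts_le' ha hlam hc hA0 (hT k) (by linarith [h3.1]) h3.2)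
        · right; exact trap (T_iter_pos ha k) h3
    rcases key k with h3 | h3
    · have h4 := ts_le' ha hlam hc hA0 (hT k) (by linarith [h3.1]) h3.2
      have h5 : |ts (T^[k] a) ((T^[k] a : ℕ) - f^[k] y)| ≤ 2.8 := by
        rw [abs_of_nonneg (ts_nonneg _ (by linarith [h3.1]))]; exact h4
      exact Near_mono (by norm_num) (near_ts h5)
    · exact near_trap h3

end Pool.Agent.Helper29K9.EF
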